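import Pool.Agent.H914R2.HodgeDefs

/-!
# The standard conjecture of Hodge type for fourfolds: definitions
-/

open CategoryTheory AlgebraicGeometry

universe u v

namespace Pool.Agent.H934.HS

open Pool.Agent.H914 Pool.Agent.H914.VarClass Pool.Agent.H914.VarClass.Obj
  Pool.Agent.H914.WeilCohomology

variable {k : Type u} [Field k] {𝒱 : VarClass k} {ops : CycleOps 𝒱}

/-- The intersection number of two cycles (of complementary codimensions). -/
noncomputable def inum (ops : CycleOps 𝒱) {X : 𝒱.Obj} (z w : X.Cycles) : ℚ :=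
  X.V.degCycle (ops.mul z w)

/-- The cycles `z` and `w` have the same cohomology class. -/
def HomEq (W : WeilCohomology.{u, v} ops) (X : 𝒱.Obj) (z w : X.Cycles) : Prop :=
  W.cl X z = W.cl X w

/-- The cycle `z` of codimension `j` is numerically equivalent to zero. -/
def NumTriv (ops : CycleOps 𝒱) (X : 𝒱.Obj) (j : ℕ) (z : X.Cycles) : Prop :=
  ∀ w, X.IsCyc (X.dim - j) w → inum ops z w = 0

/-- The Hodge index theorem for the divisor `D` on the variety `X` of dimension `n ≥ 2` (for `D`
ample this is the known case `j ≤ 1` of the standard conjecture of Hodge type): the degree of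
`D ^ n` is positive, and `z · z · D ^ (n - 2) < 0` for every divisor `z` with nonzero class for
which the class of `D ^ (n - 1) · z` is zero. -/
structure HodgeIndex (W : WeilCohomology.{u, v} ops) (X : 𝒱.Obj) (D : X.Cycles) : Prop where
  isCyc : X.IsCyc 1 D
  pos : 0 < X.V.degCycle (divPow ops D X.dim X.V.fundCycle)
  index : ∀ z, X.IsCyc 1 z → W.cl X (divPow ops D (X.dim - 1) z) = 0 → W.cl X z ≠ 0 →
    inum ops z (divPow ops D (X.dim - 2) z) < 0

/-- **The standard conjecture of Hodge type (for numerical equivalence) for the divisor `D` on the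
fourfold `X`**, in codimension two (the codimensions zero and one are known): if `z` is a cycle of
codimension two such that `D · z` is numerically equivalent to zero (that is, `z` is primitive), and
`z` is not numerically equivalent to zero, then `z · z > 0`. -/
def NumHodge (ops : CycleOps 𝒱) (X : 𝒱.Obj) (D : X.Cycles) : Prop :=
  ∀ z, X.IsCyc 2 z → NumTriv ops X 3 (ops.mul D z) → ¬ NumTriv ops X 2 z → 0 < inum ops z z

/-- For divisors `ι : E ⟶ P` and `ι' : E' ⟶ P` with projections `q : E ⟶ Δ` and `q' : E' ⟶ Δ'`, and a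
cycle `y` on `Δ'`: the cycle `q_* ι^* ι'_* q'^* y` on `Δ`. -/
noncomputable def meet (ops : CycleOps 𝒱) {P E E' Δ Δ' : 𝒱.Obj} (ι : E ⟶ P) (q : E ⟶ Δ)
    (ι' : E' ⟶ P) (q' : E' ⟶ Δ') (y : Δ'.Cycles) : Δ.Cycles :=
  ops.push q (ops.pull ι (ops.push ι' (ops.pull q' y)))

/-- The components of the reducible fibres of a family of trees of rational curves. The morphism
`p : P ⟶ T` goes from a fourfold to a threefold and is smooth outside a divisor with strict normal
crossings with components `δ s : Δ s ⟶ T`; for each `s` the irreducible components, except one, of the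
preimage of `Δ s` are `ι s i : E s i ⟶ P`, with projections `q s i : E s i ⟶ Δ s`. In terms of cycles:
`M s i j` are the intersection numbers of `E s i` with the general fibre of `E s j`, which form a
negative definite symmetric matrix (Zariski's lemma); `meet` is multiplication with `M s i j` for two
components over the same `Δ s` (`fibre`), and zero for components over different ones, whose
intersection lies over a curve (`disjoint`). There are zero-cycles of nonzero degree, and the Hodge
index theorem holds for some divisor on each surface `Δ s`. -/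
structure HasComponents (W : WeilCohomology.{u, v} ops) {P T : 𝒱.Obj} (p : P ⟶ T)
    {n : ℕ} {m : Fin n → ℕ} {Δ : Fin n → 𝒱.Obj} {E : (s : Fin n) → Fin (m s) → 𝒱.Obj}
    (δ : ∀ s, Δ s ⟶ T) (ι : ∀ s i, E s i ⟶ P) (q : ∀ s i, E s i ⟶ Δ s)
    (M : ∀ s, Fin (m s) → Fin (m s) → ℚ) : Prop where
  dimΔ : ∀ s, (Δ s).dim = 2
  dimE : ∀ s i, (E s i).dim = 3
  comm : ∀ s i, ι s i ≫ p = q s i ≫ δ s
  symm : ∀ s i j, M s i j = M s j i
  neg : ∀ s (c : Fin (m s) → ℚ), c ≠ 0 → ∑ i, ∑ j, c i * c j * M s i j < 0
  fibre : ∀ s i j y, HomEq W (Δ s) (meet ops (ι s i) (q s i) (ι s j) (q s j) y) (M s i j • y)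
  disjoint : ∀ s t, s ≠ t → ∀ i j y, HomEq W (Δ s) (meet ops (ι s i) (q s i) (ι t j) (q t j) y) 0
  pointΔ : ∀ s, ∃ t, (Δ s).IsCyc 2 t ∧ (Δ s).V.degCycle t ≠ 0
  index : ∀ s, ∃ H, HodgeIndex W (Δ s) H

/-- **Semistable families of rational curves.** The morphism `p : P ⟶ T` from a fourfold to a threefold
is a family of trees of rational curves with smooth total space, with components of the reducible fibres
as in `HasComponents`. In terms of cycles: `A` is a divisor on `P`, of nonzero degree on the fibres of
`p` (`degree`) and of degree zero on the fibres of the `E s i` (`degreeE`); and every class of a cycle of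
codimension two on `P` is of the form `p^* a · A + p^* b + ∑ (ι s i)_* (q s i)^* y`, with a divisor `a`
and a one-cycle `b` on `T` and divisors `y` on the surfaces `Δ s` (`gen`). For `n = 0` these are the
`ℙ¹`-bundles. -/
structure IsRationalFamily (W : WeilCohomology.{u, v} ops) {P T : 𝒱.Obj} (p : P ⟶ T) (A : P.Cycles)
    {n : ℕ} {m : Fin n → ℕ} {Δ : Fin n → 𝒱.Obj} {E : (s : Fin n) → Fin (m s) → 𝒱.Obj}
    (δ : ∀ s, Δ s ⟶ T) (ι : ∀ s i, E s i ⟶ P) (q : ∀ s i, E s i ⟶ Δ s)
    (M : ∀ s, Fin (m s) → Fin (m s) → ℚ) : Prop extends HasComponents W p δ ι q M where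
  dimT : T.dim = 3
  dimP : P.dim = 4
  isCyc : P.IsCyc 1 A
  degree : ∃ e : ℚ, e ≠ 0 ∧ HomEq W T (ops.push p A) (e • T.V.fundCycle)
  degreeE : ∀ s i, HomEq W (Δ s) (ops.push (q s i) (ops.pull (ι s i) A)) 0
  gen : ∀ z, P.IsCyc 2 z → ∃ a b, T.IsCyc 1 a ∧ T.IsCyc 2 b ∧
    ∃ y : ∀ s, Fin (m s) → (Δ s).Cycles, (∀ s i, (Δ s).IsCyc 1 (y s i)) ∧
      HomEq W P z (ops.mul (ops.pull p a) A + ops.pull p b +
        ∑ s, ∑ i, ops.push (ι s i) (ops.pull (q s i) (y s i)))
  point : ∃ t, T.IsCyc 3 t ∧ T.V.degCycle t ≠ 0

/-- The cycle `j^* j_* E` on `E` which represents the first Chern class of the normal bundle, for the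
inclusion `j : E ⟶ B` of a divisor. -/
noncomputable def normalCycle (ops : CycleOps 𝒱) {B E : 𝒱.Obj} (j : E ⟶ B) : E.Cycles :=
  ops.pull j (ops.push j E.V.fundCycle)

/-- The cycles of codimension two on the blow-up `π : B ⟶ X` with exceptional divisor `j : E ⟶ B` and
projection `g : E ⟶ Z` to the centre: every one has the class of a cycle of the form
`π^* x + j_* (g^* a) + t j_* η`, with a divisor `a` on `Z` and a rational number `t`, where `t = 0` if
`Z` is a surface. -/
def BlowUpFormula (W : WeilCohomology.{u, v} ops) {B X E Z : 𝒱.Obj} (π : B ⟶ X) (j : E ⟶ B)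
    (g : E ⟶ Z) : Prop :=
  ∀ z, B.IsCyc 2 z → ∃ x a, ∃ t : ℚ, X.IsCyc 2 x ∧ Z.IsCyc 1 a ∧ (Z.dim = 2 → t = 0) ∧
    HomEq W B z (ops.pull π x + ops.push j (ops.pull g a + t • normalCycle ops j))

/-- The self-intersection formula for the divisor `j : E ⟶ B`. -/
def SelfIntersection (W : WeilCohomology.{u, v} ops) {B E : 𝒱.Obj} (j : E ⟶ B) : Prop :=
  ∀ y, HomEq W E (ops.pull j (ops.push j y)) (ops.mul (normalCycle ops j) y)

/-- On the fibres of `g : E ⟶ Z`, which are of dimension `r`, the degree of the `r`-th power of the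
divisor `η` is `(-1) ^ r` (as for projective spaces and minus a hyperplane). -/
def FibreDegree (W : WeilCohomology.{u, v} ops) {E Z : 𝒱.Obj} (g : E ⟶ Z) (η : E.Cycles) (r : ℕ) :
    Prop :=
  HomEq W Z (ops.push g (divPow ops η r E.V.fundCycle)) ((-1 : ℚ) ^ r • Z.V.fundCycle)

/-- The morphism `π : B ⟶ X` of fourfolds is the blow-up of `X` in the smooth centre `i : Z ⟶ X`, of
dimension at most two, with exceptional divisor `j : E ⟶ B` and projection `g : E ⟶ Z`, in terms of
cycles: the square commutes, `π` has degree one; the self-intersection formula holds for `j`; on the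
fibres of `g`, which are projective spaces of dimension `3 - dim Z`, the class of the normal bundle is
minus the class of a hyperplane; the blow-up formula holds for cycles of codimension two. There is a
zero-cycle of nonzero degree on `Z`, and if `Z` is a surface then the Hodge index theorem holds for some
divisor on `Z`. -/
structure IsBlowUp (W : WeilCohomology.{u, v} ops) {B X E Z : 𝒱.Obj} (π : B ⟶ X) (j : E ⟶ B)
    (g : E ⟶ Z) (i : Z ⟶ X) : Prop where
  dimX : X.dim = 4
  dimB : B.dim = 4
  dimE : E.dim = 3
  dimZ : Z.dim ≤ 2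
  comm : j ≫ π = g ≫ i
  degree : HomEq W X (ops.push π B.V.fundCycle) X.V.fundCycle
  selfInt : SelfIntersection W j
  fibre : FibreDegree W g (normalCycle ops j) (3 - Z.dim)
  gen : BlowUpFormula W π j g
  point : ∃ t, Z.IsCyc Z.dim t ∧ Z.V.degCycle t ≠ 0
  index : Z.dim = 2 → ∃ H, HodgeIndex W Z H

/-- If the product with `q^* D` of the divisor `r` on the fourfold `P` is numerically equivalent to zero,
then so is its product with `q^* x`, for every cycle `x` of codimension two on `X`. (If `q` is
generically finite and `D` is ample, then `r` is a combination of divisors which are contracted to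
points by `q`, and `x` can be moved away from these points.) -/
def IsContracted (ops : CycleOps 𝒱) {P X : 𝒱.Obj} (q : P ⟶ X) (D : X.Cycles) : Prop :=
  ∀ r, P.IsCyc 1 r → NumTriv ops P 2 (ops.mul r (ops.pull q D)) →
    ∀ x, X.IsCyc 2 x → NumTriv ops P 3 (ops.mul r (ops.pull q x))

/-- The morphism `q : P ⟶ X` of fourfolds is generically finite, and `D` and `A` are (ample) divisors on
`X` and `P`, in terms of cycles: `q` has positive degree; the Hodge index theorem holds for `D` and for
the (ample) divisors `A + N q^* D`, `N ≥ 0`; the intersection number `A · A · q^* D · q^* D` is positive;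
and if `r` is a divisor on `P` such that `r · q^* D` is numerically equivalent to zero (that is, `r` is a
combination of divisors which are contracted to points by `q`), then `r · q^* x` is numerically
equivalent to zero for every cycle `x` of codimension two on `X`. -/
structure IsGenericallyFinite (W : WeilCohomology.{u, v} ops) {P X : 𝒱.Obj} (q : P ⟶ X)
    (D : X.Cycles) (A : P.Cycles) : Prop where
  dimX : X.dim = 4
  dimP : P.dim = 4
  degree : ∃ δ : ℚ, 0 < δ ∧ HomEq W X (ops.push q P.V.fundCycle) (δ • X.V.fundCycle)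
  indexX : HodgeIndex W X D
  indexP : ∀ N : ℕ, HodgeIndex W P (A + (N : ℚ) • ops.pull q D)
  mixed : 0 < inum ops (ops.mul A A) (ops.mul (ops.pull q D) (ops.pull q D))
  contracted : IsContracted ops q D

/-- The smallest class of fourfolds which contains the fourfolds in `S` and the semistable families of
rational curves over threefolds, and which is stable under blowing up smooth centres and under images
with respect to generically finite morphisms. For empty `S` these are uniruled fourfolds, and over an
algebraically closed field every uniruled fourfold is the image of a semistable family of rational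
curves under a generically finite morphism (de Jong). -/
inductive Generated (W : WeilCohomology.{u, v} ops) (S : Set 𝒱.Obj) : 𝒱.Obj → Prop
  | known {X : 𝒱.Obj} (hX : X ∈ S) : Generated W S X
  | family {P T : 𝒱.Obj} (p : P ⟶ T) (A : P.Cycles) {n : ℕ} {m : Fin n → ℕ} {Δ : Fin n → 𝒱.Obj}
      {E : (s : Fin n) → Fin (m s) → 𝒱.Obj} (δ : ∀ s, Δ s ⟶ T) (ι : ∀ s i, E s i ⟶ P)
      (q : ∀ s i, E s i ⟶ Δ s) (M : ∀ s, Fin (m s) → Fin (m s) → ℚ)
      (h : IsRationalFamily W p A δ ι q M) : Generated W S P
  | blowUp {B X E Z : 𝒱.Obj} (π : B ⟶ X) (j : E ⟶ B) (g : E ⟶ Z) (i : Z ⟶ X)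
      (h : IsBlowUp W π j g i) (hX : Generated W S X) : Generated W S B
  | image {P X : 𝒱.Obj} (q : P ⟶ X) (D : X.Cycles) (A : P.Cycles)
      (h : IsGenericallyFinite W q D A) (hP : Generated W S P) : Generated W S X

end Pool.Agent.H934.HS
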