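import Pool.Agent.H934.HS.BlowUp

/-!
# Images of fourfolds with respect to generically finite morphisms
-/

open CategoryTheory AlgebraicGeometry Module

universe u v

namespace Pool.Agent.H934.HS

open Pool.Agent.H914 Pool.Agent.H914.VarClass Pool.Agent.H914.VarClass.Obj
  Pool.Agent.H914.WeilCohomology Filter Topology

/-- A limit argument. -/
lemma nonpos_of_inv {G : ℚ → ℚ} (hG : Continuous G) (h : ∀ N : ℕ, 1 ≤ N → G (N : ℚ)⁻¹ ≤ 0) :
    G 0 ≤ 0 := by
  have h1 : Tendsto (fun N : ℕ => (N : ℚ)⁻¹) atTop (𝓝 0) :=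
    tendsto_inv_atTop_zero.comp tendsto_natCast_atTop_atTop
  have h2 : Tendsto (fun N : ℕ => G (N : ℚ)⁻¹) atTop (𝓝 (G 0)) := (hG.tendsto 0).comp h1
  refine le_of_tendsto h2 ?_
  filter_upwards [eventually_ge_atTop 1] with N hN using h N hN

lemma limit_ineq (a0 a1 a2 b0 b1 b2 c0 c1 c2 c3 c4 : ℚ) (hc : 0 < c4)
    (h : ∀ N : ℕ, (a0 + 2 * N * a1 + N ^ 2 * a2) *
      (c0 + 4 * N * c1 + 6 * N ^ 2 * c2 + 4 * N ^ 3 * c3 + N ^ 4 * c4) ≤
      (b0 + 3 * N * b1 + 3 * N ^ 2 * b2) ^ 2) : a2 ≤ 0 := by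
  have h1 : (fun s : ℚ => (a0 * s ^ 2 + 2 * s * a1 + a2) *
      (c0 * s ^ 4 + 4 * s ^ 3 * c1 + 6 * s ^ 2 * c2 + 4 * s * c3 + c4) -
      (b0 * s ^ 3 + 3 * s ^ 2 * b1 + 3 * s * b2) ^ 2) 0 ≤ 0 := by
    refine nonpos_of_inv (G := fun s : ℚ => (a0 * s ^ 2 + 2 * s * a1 + a2) *
      (c0 * s ^ 4 + 4 * s ^ 3 * c1 + 6 * s ^ 2 * c2 + 4 * s * c3 + c4) -
      (b0 * s ^ 3 + 3 * s ^ 2 * b1 + 3 * s * b2) ^ 2) (by fun_prop) ?_
    intro N hN
    have hN0 : (N : ℚ) ≠ 0 := by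
      have : N ≠ 0 := by omega
      exact_mod_cast this
    have h2 := h N
    have e : (a0 * (N : ℚ)⁻¹ ^ 2 + 2 * (N : ℚ)⁻¹ * a1 + a2) *
      (c0 * (N : ℚ)⁻¹ ^ 4 + 4 * (N : ℚ)⁻¹ ^ 3 * c1 + 6 * (N : ℚ)⁻¹ ^ 2 * c2 +
        4 * (N : ℚ)⁻¹ * c3 + c4) - (b0 * (N : ℚ)⁻¹ ^ 3 + 3 * (N : ℚ)⁻¹ ^ 2 * b1 +
        3 * (N : ℚ)⁻¹ * b2) ^ 2 = ((a0 + 2 * N * a1 + N ^ 2 * a2) *
      (c0 + 4 * N * c1 + 6 * N ^ 2 * c2 + 4 * N ^ 3 * c3 + N ^ 4 * c4) -
      (b0 + 3 * N * b1 + 3 * N ^ 2 * b2) ^ 2) * (N : ℚ)⁻¹ ^ 6 := by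
      field_simp
    change (a0 * (N : ℚ)⁻¹ ^ 2 + 2 * (N : ℚ)⁻¹ * a1 + a2) *
      (c0 * (N : ℚ)⁻¹ ^ 4 + 4 * (N : ℚ)⁻¹ ^ 3 * c1 + 6 * (N : ℚ)⁻¹ ^ 2 * c2 +
        4 * (N : ℚ)⁻¹ * c3 + c4) - (b0 * (N : ℚ)⁻¹ ^ 3 + 3 * (N : ℚ)⁻¹ ^ 2 * b1 +
        3 * (N : ℚ)⁻¹ * b2) ^ 2 ≤ 0
    rw [e]
    apply mul_nonpos_of_nonpos_of_nonneg
    · linarith
    · positivity
  have h2 : a2 * c4 ≤ 0 := by simpa using h1
  by_contra hlt
  push Not at hlt
  have := mul_pos hlt hc
  linarith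

variable {k : Type u} [Field k] {𝒱 : VarClass k} {ops : CycleOps 𝒱}
  {W : WeilCohomology.{u, v} ops} {P X : 𝒱.Obj}

/-- The even classes form a commutative ring. -/
lemma mem_center {j : ℕ} {a : W.H X} (ha : a ∈ alg W X j) :
    a ∈ Subalgebra.center W.K (W.H X) := by
  rw [Subalgebra.mem_center_iff]
  intro b
  exact (alg_comm ha b).symm

section

variable {α θ w : W.H P} (hα : α ∈ alg W P 1) (hθ : θ ∈ alg W P 1) (hw : w ∈ alg W P 1)
  (t : ℚ)

include hα hθ

lemma expand4 : qtr W P ((α + t • θ) ^ 4) = qtr W P (α ^ 4) + 4 * t * qtr W P (α ^ 3 * θ) +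
    6 * t ^ 2 * qtr W P (α ^ 2 * θ ^ 2) + 4 * t ^ 3 * qtr W P (α * θ ^ 3) +
    t ^ 4 * qtr W P (θ ^ 4) := by
  let α' : Subalgebra.center W.K (W.H P) := ⟨α, mem_center hα⟩
  let θ' : Subalgebra.center W.K (W.H P) := ⟨θ, mem_center hθ⟩
  have h1 : (α' + (t : W.K) • θ') ^ 4 = α' ^ 4 + ((4 * t : ℚ) : W.K) • (α' ^ 3 * θ') +
      ((6 * t ^ 2 : ℚ) : W.K) • (α' ^ 2 * θ' ^ 2) + ((4 * t ^ 3 : ℚ) : W.K) • (α' * θ' ^ 3) +
      ((t ^ 4 : ℚ) : W.K) • θ' ^ 4 := by
    simp only [Algebra.smul_def]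
    push_cast
    simp only [map_ofNat]
    ring
  have h2 := congrArg (Subalgebra.val _) h1
  simp only [map_add, map_pow, map_smul, map_mul, Subalgebra.coe_val] at h2
  rw [rat_smul, h2]
  simp only [← rat_smul, map_add, map_smul, smul_eq_mul]
  rfl

include hw

lemma expand3 : qtr W P ((α + t • θ) ^ 3 * w) = qtr W P (α ^ 3 * w) +
    3 * t * qtr W P (α ^ 2 * θ * w) + 3 * t ^ 2 * qtr W P (α * θ ^ 2 * w) +
    t ^ 3 * qtr W P (θ ^ 3 * w) := by
  let α' : Subalgebra.center W.K (W.H P) := ⟨α, mem_center hα⟩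
  let θ' : Subalgebra.center W.K (W.H P) := ⟨θ, mem_center hθ⟩
  let w' : Subalgebra.center W.K (W.H P) := ⟨w, mem_center hw⟩
  have h1 : (α' + (t : W.K) • θ') ^ 3 * w' = α' ^ 3 * w' +
      ((3 * t : ℚ) : W.K) • (α' ^ 2 * θ' * w') +
      ((3 * t ^ 2 : ℚ) : W.K) • (α' * θ' ^ 2 * w') + ((t ^ 3 : ℚ) : W.K) • (θ' ^ 3 * w') := by
    simp only [Algebra.smul_def]
    push_cast
    simp only [map_ofNat]
    ring
  have h2 := congrArg (Subalgebra.val _) h1
  simp only [map_add, map_pow, map_smul, map_mul, Subalgebra.coe_val] at h2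
  rw [rat_smul, h2]
  simp only [← rat_smul, map_add, map_smul, smul_eq_mul]
  rfl

lemma expand2 : qtr W P ((α + t • θ) ^ 2 * (w * w)) = qtr W P (α ^ 2 * (w * w)) +
    2 * t * qtr W P (α * θ * (w * w)) + t ^ 2 * qtr W P (θ ^ 2 * (w * w)) := by
  let α' : Subalgebra.center W.K (W.H P) := ⟨α, mem_center hα⟩
  let θ' : Subalgebra.center W.K (W.H P) := ⟨θ, mem_center hθ⟩
  let w' : Subalgebra.center W.K (W.H P) := ⟨w, mem_center hw⟩
  have h1 : (α' + (t : W.K) • θ') ^ 2 * (w' * w') = α' ^ 2 * (w' * w') +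
      ((2 * t : ℚ) : W.K) • (α' * θ' * (w' * w')) +
      ((t ^ 2 : ℚ) : W.K) • (θ' ^ 2 * (w' * w')) := by
    simp only [Algebra.smul_def]
    push_cast
    simp only [map_ofNat]
    ring
  have h2 := congrArg (Subalgebra.val _) h1
  simp only [map_add, map_pow, map_smul, map_mul, Subalgebra.coe_val] at h2
  rw [rat_smul, h2]
  simp only [← rat_smul, map_add, map_smul, smul_eq_mul]
  rfl

end

/-- **Images of good fourfolds are good.** -/
theorem good_image (q : P ⟶ X) (D : X.Cycles) (A : P.Cycles) (h : IsGenericallyFinite W q D A)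
    (hG : Good W P) : Good W X := by
  classical
  obtain ⟨hP, m, hneg, d, hd⟩ := hG
  have hX := h.dimX
  obtain ⟨δ, hδ, hdeg⟩ := h.degree
  replace hdeg := degree_cl q hdeg
  have hA : P.IsCyc 1 A := by simpa using (h.indexP 0).isCyc
  set ξ := W.cl X D with hξ
  set α := W.cl P A with hαdef
  set θ := W.map q ξ with hθdef
  have hξm : ξ ∈ alg W X 1 := h.indexX.mem
  have hα : α ∈ alg W P 1 := cl_mem_alg hA
  have hθ : θ ∈ alg W P 1 := alg_map q hξm
  have hcl : ∀ N : ℕ, W.cl P (A + (N : ℚ) • ops.pull q D) = α + (N : ℚ) • θ := fun N => by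
    rw [map_add, cl_smul, W.cl_pull, rat_smul]
  have hqpull : ∀ c : W.H X, qtr W P (W.map q c) = δ * qtr W X c := fun c => by
    rw [← one_mul (W.map q c), ← qtr_push_mul, hdeg, smul_mul_assoc, one_mul, ← rat_smul,
      map_smul, smul_eq_mul]
  have hc4 : 0 < qtr W P (θ ^ 4) := by
    have h1 := h.indexX.pos_qtr
    rw [hX] at h1
    rw [hθdef, ← map_pow, hqpull]
    exact mul_pos hδ h1
  have hmixed : 0 < qtr W P (α ^ 2 * (θ * θ)) := by
    have h1 := h.mixed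
    have hqD : P.IsCyc 1 (ops.pull q D) := ops.pull_mem q h.indexX.isCyc
    rw [inum_eq (W := W) (ops.mul_mem hA hA) (ops.mul_mem hqD hqD) (by omega), W.cl_mul, W.cl_mul,
      W.cl_pull, ← pow_two] at h1
    exact h1
  -- the Hodge index theorem for `A`
  have hAneg : ∀ a ∈ alg W P 1, qtr W P (α ^ 3 * a) = 0 → a ≠ 0 →
      qtr W P (α ^ 2 * (a * a)) < 0 := by
    intro a ha h0 hne
    have h1 := (h.indexP 0).neg (W := W) (by omega) ha
    rw [hcl, hP] at h1
    simp only [Nat.cast_zero, zero_smul, add_zero] at h1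
    exact h1 h0 hne
  apply good_of_prim h.indexX hX
  intro x hx
  have hy := nonneg_of_orthogonal (Q := q2 W P) q2_symm hneg (mulL hθ) (mulL hα)
    (fun a b => by
      rw [q2_mulL_mulL, q2_mulL_mulL, alg_comm hθ α])
    (((qf W P) (θ ^ 3)) ∘ₗ (alg W P 1).subtype) (ntDiv W P) d hd
    (fun w hw => by
      change qtr W P (θ ^ 3 * (w : W.H P)) = 0 at hw
      rw [q2_mulL_mulL, ← pow_two θ]
      refine limit_ineq (qtr W P (α ^ 2 * ((w : W.H P) * w))) (qtr W P (α * θ * ((w : W.H P) * w)))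
        _ (qtr W P (α ^ 3 * w)) (qtr W P (α ^ 2 * θ * w)) (qtr W P (α * θ ^ 2 * w))
        (qtr W P (α ^ 4)) (qtr W P (α ^ 3 * θ)) (qtr W P (α ^ 2 * θ ^ 2))
        (qtr W P (α * θ ^ 3)) (qtr W P (θ ^ 4)) hc4 ?_
      intro N
      have h1 := (h.indexP N).lorentz (W := W) (by omega) w.2
      rw [hcl, hP] at h1
      simp only [Nat.reduceSub] at h1
      rw [expand2 hα hθ w.2, expand3 hα hθ w.2, expand4 hα hθ, hw] at h1
      simpa using h1)
    (fun r hr hrN => by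
      have hB : ∀ a ∈ alg W P 1, qtr W P (α ^ 2 * (θ * a)) = qtr W P (α ^ 2 * (a * θ)) :=
        fun a _ => by rw [alg_comm hθ a]
      have hθr : qtr W P (α ^ 2 * (θ * (r : W.H P))) = 0 := by
        have h1 := hr ⟨α ^ 2, by have := alg_pow hα 2; rwa [mul_one] at this⟩
        rw [q2_apply, mulL_coe] at h1
        rw [← alg_comm (alg_mul hθ r.2)]
        exact h1
      have hr0 : (r : W.H P) ≠ 0 := by
        intro h0
        apply hrN
        have : r = 0 := Subtype.ext h0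
        rw [this]; exact zero_mem _
      rw [q2_mulL_mulL, ← pow_two α]
      by_contra hlt
      push Not at hlt
      set x1 := qtr W P (α ^ 3 * (r : W.H P)) with hx1
      set y1 := qtr W P (α ^ 3 * θ) with hy1
      set z : W.H P := x1 • θ - y1 • (r : W.H P) with hz
      have hzm : z ∈ alg W P 1 := sub_mem (Submodule.smul_mem _ _ hθ) (Submodule.smul_mem _ _ r.2)
      have hlin : ∀ c : W.H P, qtr W P (c * z) = x1 * qtr W P (c * θ) -
          y1 * qtr W P (c * (r : W.H P)) := by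
        intro c
        rw [hz, mul_sub, map_sub, rat_smul, rat_smul, mul_smul_comm, mul_smul_comm, ← rat_smul,
          ← rat_smul, map_smul, map_smul, smul_eq_mul, smul_eq_mul]
      have hz3 : qtr W P (α ^ 3 * z) = 0 := by
        rw [hlin, ← hx1, ← hy1]; ring
      have hzθ : qtr W P (α ^ 2 * (θ * z)) = x1 * qtr W P (α ^ 2 * (θ * θ)) := by
        rw [← mul_assoc, hlin, mul_assoc, mul_assoc, hθr]; ring
      have hzr : qtr W P (α ^ 2 * ((r : W.H P) * z)) =
          - y1 * qtr W P (α ^ 2 * ((r : W.H P) * r)) := by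
        rw [← mul_assoc, hlin, mul_assoc, mul_assoc, ← hB _ r.2, hθr]; ring
      have hzz : qtr W P (α ^ 2 * (z * z)) = x1 ^ 2 * qtr W P (α ^ 2 * (θ * θ)) +
          y1 ^ 2 * qtr W P (α ^ 2 * ((r : W.H P) * r)) := by
        rw [← mul_assoc, hlin, mul_assoc, mul_assoc, alg_comm hzm θ, alg_comm hzm (r : W.H P), hzθ,
          hzr]
        ring
      have hz0 : z = 0 := by
        by_contra hne
        have h1 := hAneg z hzm hz3 hne
        rw [hzz] at h1
        have h2 := mul_nonneg (sq_nonneg x1) hmixed.le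
        have h3 := mul_nonneg (sq_nonneg y1) hlt
        linarith
      have hx10 : x1 = 0 := by
        rw [hz0, mul_zero, mul_zero, map_zero] at hzθ
        exact (mul_eq_zero.1 hzθ.symm).resolve_right hmixed.ne'
      have hy10 : y1 = 0 := by
        rw [hz, hx10, zero_smul, zero_sub, neg_eq_zero, rat_smul, smul_eq_zero] at hz0
        have := hz0.resolve_right hr0
        exact_mod_cast this
      have hθ0 : θ ≠ 0 := by
        intro h0
        rw [h0, mul_zero, mul_zero, map_zero] at hmixed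
        exact lt_irrefl _ hmixed
      have h4 := hAneg θ hθ (by rw [← hy1, hy10]) hθ0
      linarith)
    (pullL W q 2 x)
    (fun w => by
      rw [q2_apply, mulL_coe]
      change qtr W P (W.map q (x : W.H X) * (θ * (w : W.H P))) = 0
      have h1 : W.map q (x : W.H X) * (θ * (w : W.H P)) = (w : W.H P) * W.map q (x * ξ) := by
        rw [alg_comm w.2, map_mul, mul_assoc]
      rw [h1, ← qtr_push_mul]
      have h2 : W.push q (w : W.H P) ∈ alg W X 1 := alg_push q w.2 (by omega)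
      rw [alg_comm h2, mul_assoc]
      exact hx ⟨_, h2⟩)
    (fun r hr => by
      obtain ⟨⟨_, z, hz, rfl⟩, hzr⟩ : ∃ r' : alg W P 1, r' = r := ⟨r, rfl⟩
      subst hzr
      obtain ⟨c, hc, hcx⟩ := x.2
      have h1 : NumTriv ops P 2 (ops.mul z (ops.pull q D)) := by
        intro v hv
        rw [hP] at hv
        rw [inum_eq (W := W) (ops.mul_mem hz (ops.pull_mem q h.indexX.isCyc)) hv (by omega),
          W.cl_mul, W.cl_pull]
        have h2 := hr ⟨W.cl P v, cl_mem_alg hv⟩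
        rw [q2_apply, mulL_coe] at h2
        rw [alg_comm (cl_mem_alg hz)]
        exact h2
      have h3 := h.contracted z hz h1 c hc A (by rw [hP]; exact hA)
      rw [inum_eq (W := W) (ops.mul_mem hz (ops.pull_mem q hc)) hA (by omega), W.cl_mul,
        W.cl_pull, hcx] at h3
      rw [q2_apply, mulL_coe]
      change qtr W P (W.map q (x : W.H X) * (α * W.cl P z)) = 0
      rw [← h3]
      congr 1
      rw [alg_comm hα, ← mul_assoc, alg_comm (alg_map q x.2)])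
  have h1 : q2 W P (pullL W q 2 x) (pullL W q 2 x) = δ * q2 W X x x := by
    change qtr W P (W.map q (x : W.H X) * W.map q (x : W.H X)) = _
    rw [← map_mul, hqpull]
    rfl
  rw [h1] at hy
  by_contra hlt
  push Not at hlt
  have := mul_neg_of_pos_of_neg hδ hlt
  linarith

/-- **The standard conjecture of Hodge type for the fourfolds generated by the known ones and the
ruled ones.** -/
theorem generated_good (S : Set 𝒱.Obj)
    (hS : ∀ X ∈ S, X.dim = 4 ∧ ∃ D, HodgeIndex W X D ∧ NumHodge ops X D) {X : 𝒱.Obj}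
    (hX : Generated W S X) : Good W X := by
  induction hX with
  | known hX =>
    obtain ⟨h1, D, h2, h3⟩ := hS _ hX
    exact good_of_numHodge h1 h2 h3
  | family p A δ ι q M h => exact good_family h
  | blowUp π j g i h _ ih => exact good_blowUp h ih
  | image q D A h _ ih => exact good_image q D A h ih

end Pool.Agent.H934.HS
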