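import Pool.Agent.H934.HS.Lin2
import Pool.Agent.H934.HS.Defs
import Pool.Agent.H914R2.WeilBasic

/-!
# Classes of cycles modulo homological equivalence, and the rational intersection form
-/

open CategoryTheory AlgebraicGeometry Module

universe u v

namespace Pool.Agent.H934.HS

open Pool.Agent.H914 Pool.Agent.H914.VarClass Pool.Agent.H914.VarClass.Obj
  Pool.Agent.H914.WeilCohomology

variable {k : Type u} [Field k] {𝒱 : VarClass k} {ops : CycleOps 𝒱}

/-- The cohomology as a rational vector space. -/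
noncomputable instance ratModule (W : WeilCohomology.{u, v} ops) (X : 𝒱.Obj) : Module ℚ (W.H X) :=
  Module.compHom (W.H X) (algebraMap ℚ W.K)

lemma rat_smul (W : WeilCohomology.{u, v} ops) {X : 𝒱.Obj} (q : ℚ) (a : W.H X) :
    q • a = (q : W.K) • a := by
  change (algebraMap ℚ W.K q) • a = _
  rw [eq_ratCast]

/-- A rational retraction of the coefficient field. -/
lemma exists_retr (K : Type v) [Field K] [CharZero K] : ∃ ρ : K →ₗ[ℚ] ℚ, ρ 1 = 1 := by
  obtain ⟨ρ, hρ⟩ := (LinearMap.toSpanSingleton ℚ K 1).exists_leftInverse_of_injective (by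
    rw [LinearMap.ker_eq_bot]
    intro a b h
    simpa [LinearMap.toSpanSingleton_apply] using h)
  refine ⟨ρ, ?_⟩
  have := congrArg (fun F => F 1) hρ
  simpa using this

/-- A rational retraction of the coefficient field. -/
noncomputable def retr (K : Type v) [Field K] [CharZero K] : K →ₗ[ℚ] ℚ := (exists_retr K).choose

lemma retr_one (K : Type v) [Field K] [CharZero K] : retr K 1 = 1 := (exists_retr K).choose_spec

lemma retr_cast {K : Type v} [Field K] [CharZero K] (q : ℚ) : retr K (q : K) = q := by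
  have : (q : K) = q • (1 : K) := by
    rw [Algebra.smul_def, mul_one, eq_ratCast]
  rw [this, map_smul, retr_one, smul_eq_mul, mul_one]

/-- The trace with rational values. -/
noncomputable def qtr (W : WeilCohomology.{u, v} ops) (X : 𝒱.Obj) : W.H X →ₗ[ℚ] ℚ where
  toFun a := retr W.K (W.tr X a)
  map_add' a b := by rw [map_add, map_add]
  map_smul' q a := by
    rw [rat_smul, map_smul]
    have : (q : W.K) • W.tr X a = q • W.tr X a := by
      rw [smul_eq_mul, Algebra.smul_def, eq_ratCast]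
    rw [this, map_smul]
    rfl

/-- The classes of the cycles of codimension `j`. -/
noncomputable def alg (W : WeilCohomology.{u, v} ops) (X : 𝒱.Obj) (j : ℕ) :
    Submodule ℚ (W.H X) where
  carrier := {c | ∃ z, X.IsCyc j z ∧ W.cl X z = c}
  add_mem' := by
    rintro _ _ ⟨z, hz, rfl⟩ ⟨w, hw, rfl⟩
    exact ⟨z + w, SmVar.IsCyc.add hz hw, map_add _ _ _⟩
  zero_mem' := ⟨0, SmVar.IsCyc.zero _ _, map_zero _⟩
  smul_mem' := by
    rintro q _ ⟨z, hz, rfl⟩
    exact ⟨q • z, SmVar.IsCyc.smul q hz, by rw [cl_smul, rat_smul]⟩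

section

variable {W : WeilCohomology.{u, v} ops} {X Y : 𝒱.Obj} {i j : ℕ} {a b : W.H X}

lemma mem_alg : a ∈ alg W X j ↔ ∃ z, X.IsCyc j z ∧ W.cl X z = a := Iff.rfl

lemma cl_mem_alg {z : X.Cycles} (hz : X.IsCyc j z) : W.cl X z ∈ alg W X j := ⟨z, hz, rfl⟩

lemma gr_of_alg (ha : a ∈ alg W X j) : a ∈ W.gr X (2 * j) := by
  obtain ⟨z, hz, rfl⟩ := ha
  exact W.cl_mem hz

lemma alg_comm (ha : a ∈ alg W X j) (b : W.H X) : a * b = b * a := W.even_comm (gr_of_alg ha) b

lemma alg_mul (ha : a ∈ alg W X i) (hb : b ∈ alg W X j) : a * b ∈ alg W X (i + j) := by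
  obtain ⟨z, hz, rfl⟩ := ha
  obtain ⟨w, hw, rfl⟩ := hb
  exact ⟨ops.mul z w, ops.mul_mem hz hw, W.cl_mul z w⟩

lemma alg_one : (1 : W.H X) ∈ alg W X 0 :=
  ⟨X.V.fundCycle, X.V.fundCycle_mem, W.cl_fund X⟩

lemma alg_pow (ha : a ∈ alg W X i) (n : ℕ) : a ^ n ∈ alg W X (n * i) := by
  induction n with
  | zero => rw [pow_zero, zero_mul]; exact alg_one
  | succ n ih => rw [pow_succ, Nat.succ_mul]; exact alg_mul ih ha

lemma alg_map (f : X ⟶ Y) {c : W.H Y} (hc : c ∈ alg W Y j) : W.map f c ∈ alg W X j := by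
  obtain ⟨z, hz, rfl⟩ := hc
  exact ⟨ops.pull f z, ops.pull_mem f hz, W.cl_pull f z⟩

lemma alg_push (f : X ⟶ Y) (ha : a ∈ alg W X i) (h : i + Y.dim = j + X.dim) :
    W.push f a ∈ alg W Y j := by
  obtain ⟨z, hz, rfl⟩ := ha
  exact ⟨ops.push f z, ops.push_mem f hz h, W.cl_push f z⟩

/-- The trace of an algebraic class of maximal degree is rational. -/
lemma cast_qtr (ha : a ∈ alg W X X.dim) : (qtr W X a : W.K) = W.tr X a := by
  obtain ⟨z, hz, rfl⟩ := ha
  change ((retr W.K (W.tr X (W.cl X z)) : ℚ) : W.K) = _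
  rw [W.tr_cl hz, retr_cast]

lemma qtr_cl {z : X.Cycles} (hz : X.IsCyc X.dim z) : qtr W X (W.cl X z) = X.V.degCycle z := by
  change retr W.K (W.tr X (W.cl X z)) = _
  rw [W.tr_cl hz, retr_cast]

lemma qtr_push (f : X ⟶ Y) (a : W.H X) : qtr W Y (W.push f a) = qtr W X a := by
  change retr W.K _ = retr W.K _
  have := W.tr_push f a 1
  rw [mul_one, map_one, mul_one] at this
  rw [this]

lemma qtr_push_mul (f : X ⟶ Y) (a : W.H X) (b : W.H Y) :
    qtr W Y (W.push f a * b) = qtr W X (a * W.map f b) := by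
  rw [← W.push_mul, qtr_push]

lemma qtr_eq_zero {l : ℕ} (ha : a ∈ W.gr X l) (hl : 2 * X.dim ≠ l) : qtr W X a = 0 := by
  change retr W.K _ = 0
  rw [W.tr_eq_zero ha (Ne.symm hl), map_zero]

lemma inum_eq {z w : X.Cycles} (hz : X.IsCyc i z) (hw : X.IsCyc j w) (h : i + j = X.dim) :
    inum ops z w = qtr W X (W.cl X z * W.cl X w) := by
  rw [← W.cl_mul, qtr_cl]
  · rfl
  · rw [← h]; exact ops.mul_mem hz hw

/-- An algebraic class of maximal degree and degree zero vanishes. -/
lemma eq_zero_of_top (ha : a ∈ W.gr X (2 * X.dim)) (h : W.tr X a = 0) : a = 0 := by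
  apply W.nondeg
  intro b
  refine gr_induction (W.isInternal X) (p := fun b => W.tr X (a * b) = 0) ?_ ?_ b
  · intro i b hb
    by_cases hi : i = 0
    · subst hi
      rw [W.gr_zero, Submodule.mem_span_singleton] at hb
      obtain ⟨c, rfl⟩ := hb
      rw [mul_smul_comm, mul_one, map_smul, h, smul_zero]
    · exact W.tr_eq_zero (W.mul_mem ha hb) (by omega)
  · intro b c hb hc
    rw [mul_add, map_add, hb, hc, add_zero]

lemma alg_eq_zero_of_top (ha : a ∈ alg W X X.dim) (h : qtr W X a = 0) : a = 0 := by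
  apply eq_zero_of_top (gr_of_alg ha)
  rw [← cast_qtr ha, h, Rat.cast_zero]

lemma divPow_cl (D z : X.Cycles) (n : ℕ) :
    W.cl X (divPow ops D n z) = W.cl X D ^ n * W.cl X z := by
  induction n with
  | zero => simp [divPow]
  | succ n ih =>
    rw [divPow, Function.iterate_succ_apply', W.cl_mul]
    rw [divPow] at ih
    rw [ih, pow_succ', mul_assoc]

lemma isCyc_divPow {D z : X.Cycles} (hD : X.IsCyc 1 D) (hz : X.IsCyc j z) (n : ℕ) :
    X.IsCyc (n + j) (divPow ops D n z) := by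
  induction n with
  | zero => rw [zero_add]; exact hz
  | succ n ih =>
    rw [divPow, Function.iterate_succ_apply']
    have := ops.mul_mem hD ih
    rwa [show 1 + (n + j) = n + 1 + j by omega] at this

lemma HomEq.cl {z w : X.Cycles} (h : HomEq W X z w) : W.cl X z = W.cl X w := h

lemma degree_cl (f : X ⟶ Y) {q : ℚ}
    (h : HomEq W Y (ops.push f X.V.fundCycle) (q • Y.V.fundCycle)) :
    W.push f 1 = (q : W.K) • (1 : W.H Y) := by
  have := h.cl
  rwa [W.cl_push, W.cl_fund, cl_smul, W.cl_fund] at this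

end

end Pool.Agent.H934.HS
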