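import Pool.Agent.H934.HS.Family2

/-!
# Blow-ups of fourfolds
-/

open CategoryTheory AlgebraicGeometry Module

universe u v

namespace Pool.Agent.H934.HS

open Pool.Agent.H914 Pool.Agent.H914.VarClass Pool.Agent.H914.VarClass.Obj
  Pool.Agent.H914.WeilCohomology

variable {k : Type u} [Field k] {𝒱 : VarClass k} {ops : CycleOps 𝒱}
  {W : WeilCohomology.{u, v} ops} {B X E Z : 𝒱.Obj}

/-- The pull-back of classes as a linear map. -/
noncomputable def pullL (W : WeilCohomology.{u, v} ops) {X Y : 𝒱.Obj} (f : X ⟶ Y) (j : ℕ) :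
    alg W Y j →ₗ[ℚ] alg W X j where
  toFun a := ⟨W.map f a, alg_map f a.2⟩
  map_add' a b := Subtype.ext (map_add _ _ _)
  map_smul' q a := Subtype.ext (by
    change W.map f (q • (a : W.H Y)) = q • (W.map f (a : W.H Y))
    rw [rat_smul, rat_smul, map_smul])

/-- The class of the normal bundle. -/
noncomputable def normalClass (W : WeilCohomology.{u, v} ops) {B E : 𝒱.Obj} (j : E ⟶ B) : W.H E :=
  W.map j (W.push j 1)

lemma normalCycle_cl (W : WeilCohomology.{u, v} ops) {B E : 𝒱.Obj} (j : E ⟶ B) :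
    W.cl E (normalCycle ops j) = normalClass W j := by
  rw [normalCycle, W.cl_pull, W.cl_push, W.cl_fund]
  rfl

section

variable {π : B ⟶ X} {j : E ⟶ B} {g : E ⟶ Z} {i : Z ⟶ X}

lemma normalClass_mem (h : IsBlowUp W π j g i) : normalClass W j ∈ alg W E 1 :=
  alg_map j (alg_push j alg_one (by rw [h.dimB, h.dimE]))

lemma IsBlowUp.push_one (h : IsBlowUp W π j g i) : W.push π 1 = 1 := by
  have := h.degree.cl
  rwa [W.cl_push, W.cl_fund, W.cl_fund] at this

lemma IsBlowUp.selfInt_cl (h : IsBlowUp W π j g i) {l : ℕ} {y : W.H E} (hy : y ∈ alg W E l) :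
    W.map j (W.push j y) = normalClass W j * y := by
  obtain ⟨z, _, rfl⟩ := hy
  have := (h.selfInt z).cl
  rwa [W.cl_pull, W.cl_push, W.cl_mul, normalCycle_cl] at this

lemma IsBlowUp.fibre_cl (h : IsBlowUp W π j g i) :
    W.push g (normalClass W j ^ (3 - Z.dim)) = ((-1 : ℚ) ^ (3 - Z.dim)) • (1 : W.H Z) := by
  have := HomEq.cl h.fibre
  rwa [W.cl_push, divPow_cl, W.cl_fund, mul_one, normalCycle_cl, cl_smul, W.cl_fund, ← rat_smul]
    at this

/-- The exceptional classes of codimension two. -/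
noncomputable def excL (h : IsBlowUp W π j g i) : (alg W Z 1 × ℚ) →ₗ[ℚ] alg W B 2 where
  toFun a := ⟨W.push j (W.map g (a.1 : W.H Z) + a.2 • normalClass W j),
    alg_push j (add_mem (alg_map g a.1.2) (Submodule.smul_mem _ _ (normalClass_mem h)))
      (by rw [h.dimB, h.dimE])⟩
  map_add' a b := Subtype.ext (by
    change W.push j (W.map g ((a.1 : W.H Z) + b.1) + (a.2 + b.2) • normalClass W j) =
      W.push j (W.map g (a.1 : W.H Z) + a.2 • normalClass W j) +
        W.push j (W.map g (b.1 : W.H Z) + b.2 • normalClass W j)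
    rw [← map_add, map_add (W.map g), add_smul]
    congr 1
    abel)
  map_smul' q a := Subtype.ext (by
    change W.push j (W.map g (q • (a.1 : W.H Z)) + (q * a.2) • normalClass W j) =
      q • W.push j (W.map g (a.1 : W.H Z) + a.2 • normalClass W j)
    rw [mul_smul, rat_smul W q (a.1 : W.H Z), map_smul, ← rat_smul, ← smul_add, rat_smul,
      map_smul, ← rat_smul])

lemma excL_coe (h : IsBlowUp W π j g i) (a : alg W Z 1 × ℚ) : ((excL h a : alg W B 2) : W.H B) =
    W.push j (W.map g (a.1 : W.H Z) + a.2 • normalClass W j) := rfl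

/-- The product of a class on `B` with the push-forward of a class from `E`. -/
lemma qtr_mul_push (b : W.H B) (y : W.H E) (hb : ∃ l, b ∈ alg W B l) :
    qtr W B (b * W.push j y) = qtr W E (W.map j b * y) := by
  obtain ⟨l, hb⟩ := hb
  rw [alg_comm hb, qtr_push_mul, alg_comm (alg_map j hb)]

lemma map_sq (h : IsBlowUp W π j g i) (x : W.H X) :
    W.map j (W.map π x) = W.map g (W.map i x) := by
  rw [← W.map_comp, ← W.map_comp, h.comm]

/-- Pull-backs from `X` are orthogonal to the exceptional classes. -/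
lemma exc_orth (h : IsBlowUp W π j g i) (x : alg W X 2) (a : alg W Z 1 × ℚ)
    (ha : Z.dim = 2 → a.2 = 0) : q2 W B (pullL W π 2 x) (excL h a) = 0 := by
  rw [q2_apply, excL_coe]
  change qtr W B (W.map π (x : W.H X) * _) = 0
  rw [qtr_mul_push _ _ ⟨2, alg_map π x.2⟩, map_sq h, mul_add, ← map_mul, map_add]
  have h1 : W.map i (x : W.H X) * (a.1 : W.H Z) = 0 := by
    apply gr_eq_zero (W.mul_mem (gr_of_alg (alg_map i x.2)) (gr_of_alg a.1.2))
    have := h.dimZ
    omega
  rw [h1, map_zero, map_zero, zero_add]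
  by_cases hZ : Z.dim = 2
  · rw [ha hZ, zero_smul, mul_zero, map_zero]
  · have h2 : W.map i (x : W.H X) = 0 := by
      apply gr_eq_zero (gr_of_alg (alg_map i x.2))
      have := h.dimZ
      omega
    rw [h2, map_zero, zero_mul, map_zero]

/-- The self-intersection of the exceptional classes coming from divisors on the centre. -/
lemma exc_sq (h : IsBlowUp W π j g i) (a : alg W Z 1) :
    q2 W B (excL h (a, 0)) (excL h (a, 0)) =
      qtr W Z (W.push g (normalClass W j) * ((a : W.H Z) * a)) := by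
  rw [q2_apply, excL_coe]
  change qtr W B (W.push j (W.map g (a : W.H Z) + (0 : ℚ) • normalClass W j) *
    W.push j (W.map g (a : W.H Z) + (0 : ℚ) • normalClass W j)) = _
  rw [zero_smul, add_zero, qtr_push_mul, h.selfInt_cl (alg_map g a.2), ← mul_assoc, qtr_push_mul,
    alg_comm (alg_map g a.2), mul_assoc, map_mul (W.map g)]

/-- The negative index of the exceptional classes is at most one. -/
lemma negLE_exc (h : IsBlowUp W π j g i) :
    ∃ V₂ : Submodule ℚ (alg W Z 1 × ℚ), (∀ a ∈ V₂, Z.dim = 2 → a.2 = 0) ∧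
      (∀ a, (Z.dim = 2 → a.2 = 0) → a ∈ V₂) ∧
      NegLE (V := V₂) ((q2 W B).compl₁₂ (excL h ∘ₗ V₂.subtype) (excL h ∘ₗ V₂.subtype)) 1 := by
  by_cases hZ : Z.dim = 2
  · refine ⟨LinearMap.ker (LinearMap.snd ℚ _ _), fun a ha _ => LinearMap.mem_ker.1 ha,
      fun a ha => LinearMap.mem_ker.2 (ha hZ), ?_⟩
    obtain ⟨H, hH⟩ := h.index hZ
    refine negLE_of_coords (LinearMap.pi fun _ => ((qf W Z).flip (W.cl Z H)) ∘ₗ
      (alg W Z 1).subtype ∘ₗ LinearMap.fst ℚ _ _ ∘ₗ Submodule.subtype _) ?_
    rintro ⟨⟨a, t⟩, ht⟩ hg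
    have ht' : t = 0 := LinearMap.mem_ker.1 ht
    subst ht'
    have hg' : qtr W Z ((a : W.H Z) * W.cl Z H) = 0 := congrFun hg 0
    change 0 ≤ q2 W B (excL h (a, 0)) (excL h (a, 0))
    rw [exc_sq h]
    have h1 : W.push g (normalClass W j) = -1 := by
      have := h.fibre_cl
      rw [hZ] at this
      simpa using this
    rw [h1, neg_mul, one_mul, map_neg]
    have h2 := hH.lorentz (by omega) a.2
    rw [hZ] at h2
    simp only [Nat.sub_self, pow_zero, one_mul, Nat.add_one_sub_one, pow_one] at h2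
    rw [← alg_comm a.2 (W.cl Z H), hg'] at h2
    have h3 := hH.pos_qtr
    rw [hZ] at h3
    nlinarith
  · have hZ1 : Z.dim ≤ 1 := by have := h.dimZ; omega
    refine ⟨⊤, fun a _ h2 => absurd h2 hZ, fun a _ => Submodule.mem_top, ?_⟩
    refine negLE_of_coords (LinearMap.pi fun _ => LinearMap.snd ℚ _ _ ∘ₗ Submodule.subtype _) ?_
    rintro ⟨⟨a, t⟩, _⟩ hg
    have ht' : t = 0 := congrFun hg 0
    subst ht'
    change 0 ≤ q2 W B (excL h (a, 0)) (excL h (a, 0))
    rw [exc_sq h]
    have h1 : (a : W.H Z) * a = 0 := gr_eq_zero (W.mul_mem (gr_of_alg a.2) (gr_of_alg a.2))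
      (by omega)
    rw [h1, mul_zero, map_zero]

/-- **Blow-ups of good fourfolds are good.** -/
theorem good_blowUp (h : IsBlowUp W π j g i) (hX : Good W X) : Good W B := by
  classical
  obtain ⟨hX4, m, hneg, d, hd⟩ := hX
  have hB := h.dimB
  have hE := h.dimE
  have hZ := h.dimZ
  refine ⟨hB, m + 1, ?_, ?_⟩
  · obtain ⟨V₂, hV1, hV2, hneg2⟩ := negLE_exc h
    refine hneg.add hneg2 q2_symm (fun v w => q2_symm _ _) (pullL W π 2) (excL h ∘ₗ V₂.subtype)
      ?_ (fun x => rfl) ?_ q2_symm ?_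
    · intro x
      change qtr W B (W.map π (x : W.H X) * W.map π (x : W.H X)) =
        qtr W X ((x : W.H X) * (x : W.H X))
      rw [← map_mul, ← one_mul (W.map π _), ← qtr_push_mul, h.push_one, one_mul]
    · intro x y
      exact exc_orth h x y.1 (hV1 _ y.2)
    · rintro ⟨_, z, hz, rfl⟩
      obtain ⟨x, a, t, hx, ha, ht, hz2⟩ := h.gen z hz
      refine ⟨⟨W.cl X x, cl_mem_alg hx⟩, ⟨(⟨W.cl Z a, cl_mem_alg ha⟩, t), hV2 _ ht⟩, ?_⟩
      apply Subtype.ext
      change W.map π (W.cl X x) + W.push j (W.map g (W.cl Z a) + t • normalClass W j) = W.cl B z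
      rw [hz2.cl, map_add (W.cl B), W.cl_pull, W.cl_push, map_add (W.cl E), W.cl_pull, cl_smul,
        normalCycle_cl, ← rat_smul]
  · -- the divisors
    have hemem : W.push j 1 ∈ alg W B 1 := alg_push j alg_one (by omega)
    have hη := normalClass_mem h
    refine ⟨Fin.cons ⟨W.push j 1, hemem⟩ fun l => pullL W π 1 (d l), fun c hc => ?_⟩
    rw [Fin.sum_univ_succ] at hc
    simp only [Fin.cons_zero, Fin.cons_succ] at hc
    have hcoe : (((c 0 • (⟨W.push j 1, hemem⟩ : alg W B 1) +
        ∑ l, c (Fin.succ l) • pullL W π 1 (d l) : alg W B 1)) : W.H B) =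
        c 0 • W.push j 1 + W.map π ((∑ l, c (Fin.succ l) • d l : alg W X 1) : W.H X) := by
      have : ∑ l, c (Fin.succ l) • pullL W π 1 (d l) =
          pullL W π 1 (∑ l, c (Fin.succ l) • d l) := by
        rw [map_sum]
        exact Finset.sum_congr rfl fun l _ => (map_smul _ _ _).symm
      rw [this]
      rfl
    rw [mem_ntDiv, hcoe, hB] at hc
    set s : alg W X 1 := ∑ l, c (Fin.succ l) • d l with hs
    have h2 : (fun l => c (Fin.succ l)) = 0 := by
      apply hd
      rw [mem_ntDiv]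
      intro y hy
      rw [hX4] at hy
      have h3 := hc (W.map π y) (alg_map π hy)
      rw [add_mul, map_add, ← map_mul, rat_smul, smul_mul_assoc, ← rat_smul, map_smul,
        qtr_push_mul, one_mul, map_sq h] at h3
      have h4 : W.map i y = 0 := gr_eq_zero (gr_of_alg (alg_map i hy)) (by omega)
      rw [h4, map_zero, map_zero, smul_zero, zero_add, ← one_mul (W.map π _), ← qtr_push_mul,
        h.push_one, one_mul] at h3
      exact h3
    have hs0 : s = 0 := by
      rw [hs]
      apply Finset.sum_eq_zero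
      intro l _
      have := congrFun h2 l
      simp only [Pi.zero_apply] at this
      rw [this, zero_smul]
    rw [hs0] at hc
    obtain ⟨t, ht, htne⟩ := h.point
    have h0 : c 0 = 0 := by
      have hym : normalClass W j ^ (2 - Z.dim) * W.map g (W.cl Z t) ∈ alg W E 2 := by
        have := alg_mul (alg_pow hη (2 - Z.dim)) (alg_map g (cl_mem_alg (W := W) ht))
        rwa [mul_one, Nat.sub_add_cancel hZ] at this
      have h3 := hc (W.push j (normalClass W j ^ (2 - Z.dim) * W.map g (W.cl Z t)))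
        (alg_push j hym (by omega))
      rw [Submodule.coe_zero, map_zero, add_zero, rat_smul, smul_mul_assoc, ← rat_smul, map_smul,
        qtr_push_mul, one_mul, h.selfInt_cl hym, ← mul_assoc, ← pow_succ',
        show 2 - Z.dim + 1 = 3 - Z.dim by omega, ← qtr_push_mul, h.fibre_cl, smul_eq_mul] at h3
      have h5 : qtr W Z (((-1 : ℚ) ^ (3 - Z.dim)) • (1 : W.H Z) * W.cl Z t) ≠ 0 := by
        rw [rat_smul, smul_mul_assoc, one_mul, ← rat_smul, map_smul, qtr_cl ht, smul_eq_mul]
        exact mul_ne_zero (pow_ne_zero _ (by norm_num)) htne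
      exact (mul_eq_zero.1 h3).resolve_right h5
    funext l
    refine Fin.cases h0 (fun l => congrFun h2 l) l

end

end Pool.Agent.H934.HS
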