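import Pool.Agent.H934.HS.Family2

/-!
Superseded by `Pool.Agent.H934.HS.Family2` (`ℙ¹`-bundles are the families without reducible fibres).
-/
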