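import Pool.Agent.H934.HS.Lin3

/-!
# The negative index: coordinates indexed by finite types, and products with definite matrices
-/

open Module

namespace Pool.Agent.H934.HS

/-- If the form is positive semidefinite on the kernel of functionals indexed by `κ`, then its negative
index is at most the number of elements of `κ`. -/
lemma negLE_of_fintype {V : Type*} [AddCommGroup V] [Module ℚ V] {Q : V →ₗ[ℚ] V →ₗ[ℚ] ℚ}
    {κ : Type*} [Fintype κ] (g : V →ₗ[ℚ] (κ → ℚ)) (hg : ∀ v, g v = 0 → 0 ≤ Q v v) :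
    NegLE Q (Fintype.card κ) := by
  let e := LinearEquiv.funCongrLeft ℚ ℚ (Fintype.equivFin κ).symm
  refine negLE_of_coords (e.toLinearMap ∘ₗ g) fun v hv => hg v ?_
  exact e.map_eq_zero_iff.1 hv

/-- Reindexing of independent families modulo a subspace. -/
lemma exists_fin_indep {L : Type*} [AddCommGroup L] [Module ℚ L] (N : Submodule ℚ L) {κ : Type*}
    [Fintype κ] {m : ℕ} (hκ : Fintype.card κ = m) (d : κ → L)
    (hd : ∀ c : κ → ℚ, ∑ i, c i • d i ∈ N → c = 0) :
    ∃ d' : Fin m → L, ∀ c : Fin m → ℚ, ∑ i, c i • d' i ∈ N → c = 0 := by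
  let e := Fintype.equivFinOfCardEq hκ
  refine ⟨fun i => d (e.symm i), fun c hc => ?_⟩
  have h := hd (fun i => c (e i)) (by
    have : ∑ i, c (e i) • d i = ∑ i, c i • d (e.symm i) := by
      rw [← Equiv.sum_comp e (fun i => c i • d (e.symm i))]
      simp
    rw [this]
    exact hc)
  funext i
  have := congrFun h (e.symm i)
  simpa using this

/-- The product of a form which is negative semidefinite on a hyperplane and of a negative semidefinite
matrix is positive semidefinite on vectors in the hyperplane. -/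
theorem nonneg_tensor {L : Type*} [AddCommGroup L] [Module ℚ L] (G : L →ₗ[ℚ] L →ₗ[ℚ] ℚ)
    (φ : L →ₗ[ℚ] ℚ) (hG : ∀ w, φ w = 0 → G w w ≤ 0) {m : ℕ} (M : Fin m → Fin m → ℚ)
    (hs : ∀ i j, M i j = M j i) (hM : ∀ c : Fin m → ℚ, ∑ i, ∑ j, c i * c j * M i j ≤ 0)
    (y : Fin m → L) (hy : ∀ i, φ (y i) = 0) : 0 ≤ ∑ i, ∑ j, M i j * G (y i) (y j) := by
  classical
  let B : LinearMap.BilinForm ℚ (Fin m → ℚ) := Matrix.toBilin' (Matrix.of M)
  have hB : ∀ c d, B c d = ∑ i, ∑ j, c i * M i j * d j := fun c d => Matrix.toBilin'_apply _ _ _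
  have hBc : ∀ c d, B c d = B d c := fun c d => by
    rw [hB, hB, Finset.sum_comm]
    refine Finset.sum_congr rfl fun i _ => Finset.sum_congr rfl fun j _ => ?_
    rw [hs j i]
    ring
  have hBs : LinearMap.IsSymm B := ⟨fun c d => hBc c d⟩
  have hBneg : ∀ c, B c c ≤ 0 := fun c => by
    rw [hB]
    refine le_trans (le_of_eq ?_) (hM c)
    refine Finset.sum_congr rfl fun i _ => Finset.sum_congr rfl fun j _ => ?_
    ring
  obtain ⟨b, hb⟩ := LinearMap.BilinForm.exists_orthogonal_basis hBs
  let β : Fin m → Fin (finrank ℚ (Fin m → ℚ)) → ℚ := fun i k => b.repr (Pi.single i 1) k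
  have hexp : ∀ i, (Pi.single i (1 : ℚ) : Fin m → ℚ) = ∑ k, β i k • b k := fun i =>
    (b.sum_repr _).symm
  have hMij : ∀ i j, M i j = ∑ k, β i k * β j k * B (b k) (b k) := by
    intro i j
    have h1 : M i j = B (Pi.single i 1) (Pi.single j 1) := by
      change _ = Matrix.toBilin' (Matrix.of M) _ _
      rw [Matrix.toBilin'_single]
      rfl
    rw [h1, hexp i, hexp j, map_sum B, LinearMap.sum_apply]
    refine Finset.sum_congr rfl fun k _ => ?_
    rw [map_sum (B (β i k • b k)), Finset.sum_eq_single k]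
    · simp only [map_smul, LinearMap.smul_apply, smul_eq_mul]
      ring
    · intro l _ hl
      have : B (b k) (b l) = 0 := hb (Ne.symm hl)
      simp [this]
    · intro hk; exact absurd (Finset.mem_univ k) hk
  let w : Fin (finrank ℚ (Fin m → ℚ)) → L := fun k => ∑ i, β i k • y i
  have hφw : ∀ k, φ (w k) = 0 := fun k => by
    change φ (∑ i, β i k • y i) = 0
    rw [map_sum]
    exact Finset.sum_eq_zero fun i _ => by rw [map_smul, hy, smul_zero]
  have hGw : ∀ k, G (w k) (w k) = ∑ i, ∑ j, β i k * β j k * G (y i) (y j) := by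
    intro k
    change G (∑ i, β i k • y i) (∑ j, β j k • y j) = _
    rw [map_sum G, LinearMap.sum_apply]
    refine Finset.sum_congr rfl fun i _ => ?_
    rw [map_sum (G (β i k • y i))]
    refine Finset.sum_congr rfl fun j _ => ?_
    simp only [map_smul, LinearMap.smul_apply, smul_eq_mul]
    ring
  have key : ∑ i, ∑ j, M i j * G (y i) (y j) = ∑ k, B (b k) (b k) * G (w k) (w k) := by
    have e1 : ∀ i, ∑ j, M i j * G (y i) (y j) =
        ∑ k, ∑ j, β i k * β j k * B (b k) (b k) * G (y i) (y j) := fun i => by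
      rw [Finset.sum_comm]
      refine Finset.sum_congr rfl fun j _ => ?_
      rw [hMij, Finset.sum_mul]
    rw [Finset.sum_congr rfl fun i _ => e1 i, Finset.sum_comm]
    refine Finset.sum_congr rfl fun k _ => ?_
    rw [hGw, Finset.mul_sum]
    refine Finset.sum_congr rfl fun i _ => ?_
    rw [Finset.mul_sum]
    refine Finset.sum_congr rfl fun j _ => ?_
    ring
  rw [key]
  exact Finset.sum_nonneg fun k _ => mul_nonneg_of_nonpos_of_nonpos (hBneg _) (hG _ (hφw k))

end Pool.Agent.H934.HS
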