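import Pool.Agent.H934.HS.Good
import Pool.Agent.H934.HS.Tens

/-!
# Semistable families of rational curves over threefolds
-/

open CategoryTheory AlgebraicGeometry Module

universe u v

namespace Pool.Agent.H934.HS

open Pool.Agent.H914 Pool.Agent.H914.VarClass Pool.Agent.H914.VarClass.Obj
  Pool.Agent.H914.WeilCohomology

variable {k : Type u} [Field k] {𝒱 : VarClass k} {ops : CycleOps 𝒱}
  {W : WeilCohomology.{u, v} ops} {P T : 𝒱.Obj}

lemma gr_eq_zero {X : 𝒱.Obj} {a : W.H X} {i : ℕ} (ha : a ∈ W.gr X i) (hi : 2 * X.dim < i) :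
    a = 0 := by
  rw [W.gr_eq_bot X i hi] at ha
  exact (Submodule.mem_bot _).1 ha

section

variable {p : P ⟶ T} {A : P.Cycles} {n : ℕ} {m : Fin n → ℕ} {Δ : Fin n → 𝒱.Obj}
  {E : (s : Fin n) → Fin (m s) → 𝒱.Obj} {δ : ∀ s, Δ s ⟶ T} {ι : ∀ s i, E s i ⟶ P}
  {q : ∀ s i, E s i ⟶ Δ s} {M : ∀ s, Fin (m s) → Fin (m s) → ℚ}

lemma IsRationalFamily.fibre_cl (h : IsRationalFamily W p A δ ι q M) (s : Fin n)
    (i j : Fin (m s)) {l : ℕ} {y : W.H (Δ s)} (hy : y ∈ alg W (Δ s) l) :
    W.push (q s i) (W.map (ι s i) (W.push (ι s j) (W.map (q s j) y))) = M s i j • y := by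
  obtain ⟨z, _, rfl⟩ := hy
  have := (h.fibre s i j z).cl
  rwa [meet, W.cl_push, W.cl_pull, W.cl_push, W.cl_pull, cl_smul, ← rat_smul] at this

lemma IsRationalFamily.disjoint_cl (h : IsRationalFamily W p A δ ι q M) {s t : Fin n}
    (hst : s ≠ t) (i : Fin (m s)) (j : Fin (m t)) {l : ℕ} {y : W.H (Δ t)}
    (hy : y ∈ alg W (Δ t) l) :
    W.push (q s i) (W.map (ι s i) (W.push (ι t j) (W.map (q t j) y))) = 0 := by
  obtain ⟨z, _, rfl⟩ := hy
  have := (h.disjoint s t hst i j z).cl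
  rwa [meet, W.cl_push, W.cl_pull, W.cl_push, W.cl_pull, map_zero] at this

lemma IsRationalFamily.degreeE_cl (h : IsRationalFamily W p A δ ι q M) (s : Fin n)
    (i : Fin (m s)) : W.push (q s i) (W.map (ι s i) (W.cl P A)) = 0 := by
  have := (h.degreeE s i).cl
  rwa [W.cl_push, W.cl_pull, map_zero] at this

/-- The intersection number of two classes coming from the components. -/
lemma qtr_comp (s t : Fin n) (i : Fin (m s)) (j : Fin (m t)) {a b : ℕ}
    {x : W.H (Δ s)} {y : W.H (Δ t)} (hx : x ∈ alg W (Δ s) a) (hy : y ∈ alg W (Δ t) b)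
    (hE : ∃ l, W.map (ι s i) (W.push (ι t j) (W.map (q t j) y)) ∈ alg W (E s i) l)
    (hΔ : ∃ l, W.push (q s i) (W.map (ι s i) (W.push (ι t j) (W.map (q t j) y))) ∈
      alg W (Δ s) l) :
    qtr W P (W.push (ι s i) (W.map (q s i) x) * W.push (ι t j) (W.map (q t j) y)) =
      qtr W (Δ s) (x * W.push (q s i) (W.map (ι s i) (W.push (ι t j) (W.map (q t j) y)))) := by
  obtain ⟨l, hl⟩ := hE
  obtain ⟨l', hl'⟩ := hΔ
  rw [qtr_push_mul, ← alg_comm hl, ← qtr_push_mul, alg_comm hl']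

lemma IsRationalFamily.comp_mem (h : IsRationalFamily W p A δ ι q M) (s : Fin n)
    (i : Fin (m s)) {a : ℕ} {x : W.H (Δ s)} (hx : x ∈ alg W (Δ s) a) :
    W.push (ι s i) (W.map (q s i) x) ∈ alg W P (a + 1) :=
  alg_push (ι s i) (alg_map (q s i) hx) (by rw [h.dimP, h.dimE])

lemma IsRationalFamily.same (h : IsRationalFamily W p A δ ι q M) (s : Fin n)
    (i j : Fin (m s)) {a b : ℕ} {x y : W.H (Δ s)} (hx : x ∈ alg W (Δ s) a)
    (hy : y ∈ alg W (Δ s) b) :
    qtr W P (W.push (ι s i) (W.map (q s i) x) * W.push (ι s j) (W.map (q s j) y)) =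
      M s i j * qtr W (Δ s) (x * y) := by
  rw [qtr_comp s s i j hx hy ⟨_, alg_map _ (h.comp_mem s j hy)⟩
    ⟨b, by rw [h.fibre_cl s i j hy]; exact Submodule.smul_mem _ _ hy⟩, h.fibre_cl s i j hy,
    rat_smul, mul_smul_comm, ← rat_smul, map_smul, smul_eq_mul]

lemma IsRationalFamily.diff (h : IsRationalFamily W p A δ ι q M) {s t : Fin n} (hst : s ≠ t)
    (i : Fin (m s)) (j : Fin (m t)) {a b : ℕ} {x : W.H (Δ s)} {y : W.H (Δ t)}
    (hx : x ∈ alg W (Δ s) a) (hy : y ∈ alg W (Δ t) b) :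
    qtr W P (W.push (ι s i) (W.map (q s i) x) * W.push (ι t j) (W.map (q t j) y)) = 0 := by
  rw [qtr_comp s t i j hx hy ⟨_, alg_map _ (h.comp_mem t j hy)⟩
    ⟨0, by rw [h.disjoint_cl hst i j hy]; exact zero_mem _⟩, h.disjoint_cl hst i j hy, mul_zero,
    map_zero]

/-- The push-forward of the divisors on `Δ s` through the component `E s i`. -/
noncomputable def compL (h : IsRationalFamily W p A δ ι q M) (s : Fin n) (i : Fin (m s)) :
    alg W (Δ s) 1 →ₗ[ℚ] alg W P 2 where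
  toFun a := ⟨W.push (ι s i) (W.map (q s i) (a : W.H (Δ s))), h.comp_mem s i a.2⟩
  map_add' a b := Subtype.ext (by
    change W.push (ι s i) (W.map (q s i) ((a : W.H (Δ s)) + b)) = _
    rw [map_add, map_add]
    rfl)
  map_smul' c a := Subtype.ext (by
    change W.push (ι s i) (W.map (q s i) (c • (a : W.H (Δ s)))) = c • W.push (ι s i)
      (W.map (q s i) (a : W.H (Δ s)))
    rw [rat_smul, rat_smul, map_smul, map_smul])

lemma compL_coe (h : IsRationalFamily W p A δ ι q M) (s : Fin n) (i : Fin (m s))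
    (a : alg W (Δ s) 1) : ((compL h s i a : alg W P 2) : W.H P) =
      W.push (ι s i) (W.map (q s i) (a : W.H (Δ s))) := rfl

/-- All the classes of codimension two coming from the components of the reducible fibres. -/
noncomputable def redL (h : IsRationalFamily W p A δ ι q M) :
    ((s : Fin n) → Fin (m s) → alg W (Δ s) 1) →ₗ[ℚ] alg W P 2 where
  toFun y := ∑ s, ∑ i, compL h s i (y s i)
  map_add' a b := by
    simp only [Pi.add_apply, map_add, Finset.sum_add_distrib]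
  map_smul' c a := by
    simp only [Pi.smul_apply, map_smul, Finset.smul_sum, RingHom.id_apply]

lemma q2_redL (h : IsRationalFamily W p A δ ι q M)
    (y z : (s : Fin n) → Fin (m s) → alg W (Δ s) 1) :
    q2 W P (redL h y) (redL h z) = ∑ s, ∑ i, ∑ j, M s i j *
      qtr W (Δ s) ((y s i : W.H (Δ s)) * (z s j : W.H (Δ s))) := by
  change q2 W P (∑ s, ∑ i, compL h s i (y s i)) (∑ t, ∑ j, compL h t j (z t j)) = _
  rw [map_sum (q2 W P), LinearMap.sum_apply]
  refine Finset.sum_congr rfl fun s _ => ?_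
  rw [map_sum (q2 W P), LinearMap.sum_apply]
  refine Finset.sum_congr rfl fun i _ => ?_
  rw [map_sum (q2 W P (compL h s i (y s i))), Finset.sum_eq_single s]
  · rw [map_sum]
    refine Finset.sum_congr rfl fun j _ => ?_
    rw [q2_apply, compL_coe, compL_coe]
    exact h.same s i j (y s i).2 (z s j).2
  · intro t _ hts
    rw [map_sum]
    refine Finset.sum_eq_zero fun j _ => ?_
    rw [q2_apply, compL_coe, compL_coe]
    exact h.diff (Ne.symm hts) i j (y s i).2 (z t j).2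
  · intro hs; exact absurd (Finset.mem_univ s) hs

/-- The negative index of the classes coming from the components is at most their number. -/
lemma negLE_red (h : IsRationalFamily W p A δ ι q M) :
    NegLE ((q2 W P).compl₁₂ (redL h) (redL h)) (Fintype.card (Σ s, Fin (m s))) := by
  choose H hH using h.index
  let φ : ∀ s, alg W (Δ s) 1 →ₗ[ℚ] ℚ := fun s =>
    ((qf W (Δ s)).flip (W.cl (Δ s) (H s))) ∘ₗ (alg W (Δ s) 1).subtype
  have hφ : ∀ s (a : alg W (Δ s) 1), φ s a = qtr W (Δ s) ((a : W.H (Δ s)) * W.cl (Δ s) (H s)) :=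
    fun s a => rfl
  refine negLE_of_fintype (LinearMap.pi fun σ : (Σ s, Fin (m s)) =>
    φ σ.1 ∘ₗ LinearMap.proj σ.2 ∘ₗ LinearMap.proj σ.1) fun y hy => ?_
  have hy' : ∀ s i, φ s (y s i) = 0 := fun s i => congrFun hy ⟨s, i⟩
  change 0 ≤ q2 W P (redL h y) (redL h y)
  rw [q2_redL]
  refine Finset.sum_nonneg fun s _ => ?_
  let G : alg W (Δ s) 1 →ₗ[ℚ] alg W (Δ s) 1 →ₗ[ℚ] ℚ :=
    (qf W (Δ s)).domRestrict₁₂ (alg W (Δ s) 1) (alg W (Δ s) 1)
  have hG : ∀ a b : alg W (Δ s) 1, G a b = qtr W (Δ s) ((a : W.H (Δ s)) * b) := fun _ _ => rfl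
  refine nonneg_tensor G (φ s) ?_ (M s) (h.symm s) ?_ (y s) (hy' s)
  · intro w hw
    rw [hφ] at hw
    rw [hG]
    have h2 := (hH s).lorentz (by rw [h.dimΔ]) w.2
    rw [h.dimΔ] at h2
    simp only [Nat.sub_self, pow_zero, one_mul, Nat.add_one_sub_one, pow_one] at h2
    rw [← alg_comm w.2 (W.cl (Δ s) (H s)), hw] at h2
    have h3 := (hH s).pos_qtr
    rw [h.dimΔ] at h3
    nlinarith
  · intro c
    by_cases hc : c = 0
    · subst hc; simp
    · exact (h.neg s c hc).le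

end

section

variable {p : P ⟶ T} {A : P.Cycles} {n : ℕ} {m : Fin n → ℕ} {Δ : Fin n → 𝒱.Obj}
  {E : (s : Fin n) → Fin (m s) → 𝒱.Obj} {δ : ∀ s, Δ s ⟶ T} {ι : ∀ s i, E s i ⟶ P}
  {q : ∀ s i, E s i ⟶ Δ s} {M : ∀ s, Fin (m s) → Fin (m s) → ℚ}

/-- The classes `p^* a · A + p^* b`. -/
noncomputable def mainL (h : IsRationalFamily W p A δ ι q M) :
    (alg W T 1 × alg W T 2) →ₗ[ℚ] alg W P 2 where
  toFun a := ⟨W.map p (a.1 : W.H T) * W.cl P A + W.map p (a.2 : W.H T),
    add_mem (alg_mul (i := 1) (j := 1) (alg_map p a.1.2) (cl_mem_alg h.isCyc)) (alg_map p a.2.2)⟩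
  map_add' a b := Subtype.ext (by
    change W.map p ((a.1 : W.H T) + b.1) * W.cl P A + W.map p ((a.2 : W.H T) + b.2) =
      W.map p (a.1 : W.H T) * W.cl P A + W.map p (a.2 : W.H T) +
        (W.map p (b.1 : W.H T) * W.cl P A + W.map p (b.2 : W.H T))
    rw [map_add, map_add, add_mul]
    abel)
  map_smul' c a := Subtype.ext (by
    change W.map p (c • (a.1 : W.H T)) * W.cl P A + W.map p (c • (a.2 : W.H T)) =
      c • (W.map p (a.1 : W.H T) * W.cl P A + W.map p (a.2 : W.H T))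
    rw [rat_smul, rat_smul, rat_smul, map_smul, map_smul, smul_add, smul_mul_assoc])

lemma mainL_coe (h : IsRationalFamily W p A δ ι q M) (a : alg W T 1 × alg W T 2) :
    ((mainL h a : alg W P 2) : W.H P) =
      W.map p (a.1 : W.H T) * W.cl P A + W.map p (a.2 : W.H T) := rfl

/-- The classes `p^* a · A + p^* b` are orthogonal to those coming from the components. -/
lemma main_orth (h : IsRationalFamily W p A δ ι q M) (a : alg W T 1 × alg W T 2)
    (y : (s : Fin n) → Fin (m s) → alg W (Δ s) 1) : q2 W P (mainL h a) (redL h y) = 0 := by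
  rw [q2_symm]
  change q2 W P (∑ s, ∑ i, compL h s i (y s i)) (mainL h a) = 0
  rw [map_sum (q2 W P), LinearMap.sum_apply]
  refine Finset.sum_eq_zero fun s _ => ?_
  rw [map_sum (q2 W P), LinearMap.sum_apply]
  refine Finset.sum_eq_zero fun i _ => ?_
  rw [q2_apply, compL_coe, mainL_coe, qtr_push_mul]
  have hsq : ∀ x : W.H T, W.map (ι s i) (W.map p x) = W.map (q s i) (W.map (δ s) x) := fun x => by
    rw [← W.map_comp, ← W.map_comp, h.comm]
  rw [map_add (W.map (ι s i)), map_mul (W.map (ι s i)), hsq, hsq, mul_add, map_add, ← mul_assoc,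
    ← map_mul, ← map_mul]
  have h1 : (y s i : W.H (Δ s)) * W.map (δ s) (a.2 : W.H T) = 0 :=
    gr_eq_zero (W.mul_mem (gr_of_alg (y s i).2) (gr_of_alg (alg_map (δ s) a.2.2)))
      (by rw [h.dimΔ]; norm_num)
  rw [h1, map_zero, map_zero, add_zero,
    alg_comm (alg_map (q s i) (alg_mul (y s i).2 (alg_map (δ s) a.1.2))), ← qtr_push_mul,
    h.degreeE_cl, zero_mul, map_zero]

end

end Pool.Agent.H934.HS
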