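import Pool.Agent.H934.HS.Family

/-!
# Semistable families of rational curves over threefolds are good
-/

open CategoryTheory AlgebraicGeometry Module

universe u v

namespace Pool.Agent.H934.HS

open Pool.Agent.H914 Pool.Agent.H914.VarClass Pool.Agent.H914.VarClass.Obj
  Pool.Agent.H914.WeilCohomology

variable {k : Type u} [Field k] {𝒱 : VarClass k} {ops : CycleOps 𝒱}
  {W : WeilCohomology.{u, v} ops} {P T : 𝒱.Obj} {p : P ⟶ T} {A : P.Cycles} {n : ℕ}
  {m : Fin n → ℕ} {Δ : Fin n → 𝒱.Obj} {E : (s : Fin n) → Fin (m s) → 𝒱.Obj}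
  {δ : ∀ s, Δ s ⟶ T} {ι : ∀ s i, E s i ⟶ P} {q : ∀ s i, E s i ⟶ Δ s}
  {M : ∀ s, Fin (m s) → Fin (m s) → ℚ}

lemma IsRationalFamily.pull_zero (h : IsRationalFamily W p A δ ι q M) (c : W.H T) :
    qtr W P (W.map p c) = 0 := by
  have hT := h.dimT
  have hP := h.dimP
  refine gr_induction (W.isInternal T) (p := fun c => qtr W P (W.map p c) = 0) ?_ ?_ c
  · intro i c hc
    by_cases hi : i = 8
    · rw [gr_eq_zero hc (by omega), map_zero, map_zero]
    · exact qtr_eq_zero (W.map_mem p hc) (by omega)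
  · intro a b ha hb
    rw [map_add, map_add, ha, hb, add_zero]

lemma IsRationalFamily.fib (h : IsRationalFamily W p A δ ι q M) :
    ∃ e : ℚ, e ≠ 0 ∧ ∀ c : W.H T, qtr W P (W.map p c * W.cl P A) = e * qtr W T c := by
  obtain ⟨e, he, hpush⟩ := h.degree
  replace hpush := hpush.cl
  rw [W.cl_push, cl_smul, W.cl_fund] at hpush
  refine ⟨e, he, fun c => ?_⟩
  rw [← alg_comm (cl_mem_alg h.isCyc), ← qtr_push_mul, hpush, smul_mul_assoc, one_mul, ← rat_smul,
    map_smul, smul_eq_mul]

/-- The square of `p^* a · A + p^* b` vanishes if `a` is numerically equivalent to zero. -/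
lemma main_sq (h : IsRationalFamily W p A δ ι q M) (a : alg W T 1 × alg W T 2)
    (ha : a.1 ∈ ntDiv W T) : q2 W P (mainL h a) (mainL h a) = 0 := by
  have hT := h.dimT
  have hP := h.dimP
  obtain ⟨e, he, hfib⟩ := h.fib
  obtain ⟨⟨s, hs⟩, ⟨t, ht⟩⟩ := a
  rw [mem_ntDiv] at ha
  set α := W.cl P A with hα
  have hαm : α ∈ alg W P 1 := cl_mem_alg h.isCyc
  rw [q2_apply, mainL_coe, ← hα]
  change qtr W P ((W.map p s * α + W.map p t) * (W.map p s * α + W.map p t)) = 0
  have e1 : (W.map p s * α + W.map p t) * (W.map p s * α + W.map p t) =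
      W.map p (s * s) * (α * α) + W.map p (s * t) * α + W.map p (s * t) * α +
        W.map p (t * t) := by
    have c1 : ∀ x : W.H P, α * x = x * α := fun x => alg_comm hαm x
    rw [add_mul, mul_add, mul_add, map_mul, map_mul, map_mul]
    have e3 : W.map p s * α * (W.map p s * α) = W.map p s * W.map p s * (α * α) := by
      rw [mul_assoc, ← mul_assoc α, c1 (W.map p s), mul_assoc, ← mul_assoc, ← mul_assoc]
    have e4 : W.map p s * α * W.map p t = W.map p s * W.map p t * α := by
      rw [mul_assoc, c1, ← mul_assoc]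
    have e5 : W.map p t * (W.map p s * α) = W.map p s * W.map p t * α := by
      rw [← mul_assoc, ← map_mul, ← map_mul, alg_comm ht]
    rw [e3, e4, e5]
    abel
  rw [e1, map_add, map_add, map_add, h.pull_zero, hfib]
  have e6 : qtr W T (s * t) = 0 := ha t (by rw [hT]; exact ht)
  have e7 : qtr W P (W.map p (s * s) * (α * α)) = 0 := by
    have h8 : W.push p (α * α) ∈ alg W T 1 := alg_push p (alg_mul hαm hαm) (by omega)
    rw [← alg_comm (alg_mul hαm hαm), ← qtr_push_mul, alg_comm h8, mul_assoc]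
    apply ha
    rw [hT]
    exact alg_mul (i := 1) (j := 1) hs h8
  rw [e6, e7]
  ring

/-- The negative index of the classes `p^* a · A + p^* b`. -/
lemma negLE_main (h : IsRationalFamily W p A δ ι q M) [Fact (1 ≤ T.dim)] {r : ℕ}
    (hr : finrank ℚ (alg W T 1 ⧸ ntDiv W T) = r) :
    NegLE ((q2 W P).compl₁₂ (mainL h) (mainL h)) r := by
  let e : (alg W T 1 ⧸ ntDiv W T) ≃ₗ[ℚ] (Fin r → ℚ) :=
    LinearEquiv.ofFinrankEq _ _ (by rw [hr, finrank_fin_fun])
  refine negLE_of_coords (e.toLinearMap ∘ₗ (ntDiv W T).mkQ ∘ₗ LinearMap.fst ℚ _ _) fun v hv => ?_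
  change 0 ≤ q2 W P (mainL h v) (mainL h v)
  rw [main_sq h v]
  have h1 : e ((ntDiv W T).mkQ v.1) = 0 := hv
  rw [e.map_eq_zero_iff] at h1
  exact (Submodule.Quotient.mk_eq_zero _).1 h1

/-- The classes of divisors on `P`. -/
lemma family_divisors (h : IsRationalFamily W p A δ ι q M) {r : ℕ} (d : Fin r → alg W T 1)
    (hd : ∀ c : Fin r → ℚ, ∑ i, c i • d i ∈ ntDiv W T → c = 0) :
    ∃ d' : Fin (r + Fintype.card (Σ s, Fin (m s)) + 1) → alg W P 1,
      ∀ c : Fin (r + Fintype.card (Σ s, Fin (m s)) + 1) → ℚ,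
        ∑ i, c i • d' i ∈ ntDiv W P → c = 0 := by
  classical
  have hT := h.dimT
  have hP := h.dimP
  obtain ⟨e, he, hfib⟩ := h.fib
  set α := W.cl P A with hα
  have hαm : α ∈ alg W P 1 := cl_mem_alg h.isCyc
  let f : Option (Fin r ⊕ (Σ s, Fin (m s))) → alg W P 1 := fun x => match x with
    | none => ⟨α, hαm⟩
    | some (Sum.inl i) => ⟨W.map p (d i), alg_map p (d i).2⟩
    | some (Sum.inr σ) => ⟨W.push (ι σ.1 σ.2) (W.map (q σ.1 σ.2) 1),
        h.comp_mem σ.1 σ.2 (a := 0) alg_one⟩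
  refine exists_fin_indep (ntDiv W P) (κ := Option (Fin r ⊕ (Σ s, Fin (m s)))) (by simp) f ?_
  intro c hc
  -- the functionals
  have key : ∀ y ∈ alg W P 3, c none * qtr W P (α * y) + (∑ i, c (some (Sum.inl i)) *
      qtr W P (W.map p (d i : W.H T) * y) + ∑ s, ∑ i : Fin (m s), c (some (Sum.inr ⟨s, i⟩)) *
        qtr W P (W.push (ι s i) (W.map (q s i) 1) * y)) = 0 := by
    intro y hy
    let τ : alg W P 1 →ₗ[ℚ] ℚ := ((qf W P).flip y) ∘ₗ (alg W P 1).subtype
    have hτ : ∀ a, τ a = qtr W P ((a : W.H P) * y) := fun _ => rfl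
    have h1 : τ (∑ x, c x • f x) = 0 := hc y (by rw [hP]; exact hy)
    rw [Fintype.sum_option, Fintype.sum_sum_type, Fintype.sum_sigma, map_add, map_add, map_sum,
      map_sum, map_smul] at h1
    rw [← h1]
    congr 1
    congr 1
    · exact Finset.sum_congr rfl fun i _ => by rw [map_smul]; rfl
    · refine Finset.sum_congr rfl fun s _ => ?_
      rw [map_sum]
      exact Finset.sum_congr rfl fun i _ => by rw [map_smul]; rfl
  -- the components
  choose t ht htne using h.pointΔ
  have hcomp : ∀ s, (fun i : Fin (m s) => c (some (Sum.inr ⟨s, i⟩))) = 0 := by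
    intro s
    by_contra hne
    have h1 : ∀ i : Fin (m s), ∑ j : Fin (m s), c (some (Sum.inr ⟨s, j⟩)) * M s j i = 0 := by
      intro i
      have hti : W.cl (Δ s) (t s) ∈ alg W (Δ s) 2 := cl_mem_alg (ht s)
      have h2 := key _ (h.comp_mem s i hti)
      have e1 : qtr W P (α * W.push (ι s i) (W.map (q s i) (W.cl (Δ s) (t s)))) = 0 := by
        rw [alg_comm hαm, qtr_push_mul, alg_comm (alg_map (q s i) hti), ← qtr_push_mul,
          h.degreeE_cl, zero_mul, map_zero]
      have e2 : ∀ l, qtr W P (W.map p (d l : W.H T) *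
          W.push (ι s i) (W.map (q s i) (W.cl (Δ s) (t s)))) = 0 := by
        intro l
        have h3 : W.map (ι s i) (W.map p (d l : W.H T)) =
            W.map (q s i) (W.map (δ s) (d l : W.H T)) := by
          rw [← W.map_comp, ← W.map_comp, h.comm]
        rw [alg_comm (alg_map p (d l).2), qtr_push_mul, h3, ← map_mul]
        have h4 : W.cl (Δ s) (t s) * W.map (δ s) (d l : W.H T) = 0 :=
          gr_eq_zero (W.mul_mem (gr_of_alg hti) (gr_of_alg (alg_map (δ s) (d l).2)))
            (by rw [h.dimΔ]; norm_num)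
        rw [h4, map_zero, map_zero]
      rw [e1, mul_zero, zero_add, Finset.sum_eq_zero fun l _ => by rw [e2, mul_zero], zero_add,
        Finset.sum_eq_single s] at h2
      · have h5 : ∑ j : Fin (m s), c (some (Sum.inr ⟨s, j⟩)) *
            qtr W P (W.push (ι s j) (W.map (q s j) 1) *
              W.push (ι s i) (W.map (q s i) (W.cl (Δ s) (t s)))) =
            (∑ j : Fin (m s), c (some (Sum.inr ⟨s, j⟩)) * M s j i) *
              (Δ s).V.degCycle (t s) := by
          rw [Finset.sum_mul]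
          refine Finset.sum_congr rfl fun j _ => ?_
          rw [h.same s j i (alg_one) hti, one_mul, qtr_cl (by rw [h.dimΔ]; exact ht s)]
          ring
        rw [h5] at h2
        exact (mul_eq_zero.1 h2).resolve_right (htne s)
      · intro s' _ hs'
        refine Finset.sum_eq_zero fun j _ => ?_
        rw [h.diff hs' j i alg_one hti, mul_zero]
      · intro hs; exact absurd (Finset.mem_univ s) hs
    have h2 := h.neg s _ hne
    have h3 : ∑ i : Fin (m s), ∑ j : Fin (m s), c (some (Sum.inr ⟨s, i⟩)) *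
        c (some (Sum.inr ⟨s, j⟩)) * M s i j = 0 := by
      rw [Finset.sum_comm]
      refine Finset.sum_eq_zero fun i _ => ?_
      have : ∑ j : Fin (m s), c (some (Sum.inr ⟨s, j⟩)) * c (some (Sum.inr ⟨s, i⟩)) * M s j i =
          c (some (Sum.inr ⟨s, i⟩)) *
            ∑ j : Fin (m s), c (some (Sum.inr ⟨s, j⟩)) * M s j i := by
        rw [Finset.mul_sum]
        exact Finset.sum_congr rfl fun j _ => by ring
      rw [this, h1, mul_zero]
    rw [h3] at h2
    exact lt_irrefl _ h2
  have hcomp' : ∀ s (i : Fin (m s)), c (some (Sum.inr ⟨s, i⟩)) = 0 := fun s i =>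
    congrFun (hcomp s) i
  have key2 : ∀ y ∈ alg W P 3, c none * qtr W P (α * y) + ∑ i, c (some (Sum.inl i)) *
      qtr W P (W.map p (d i : W.H T) * y) = 0 := by
    intro y hy
    have h1 := key y hy
    rw [Finset.sum_eq_zero (s := Finset.univ) (f := fun s => ∑ i : Fin (m s),
      c (some (Sum.inr ⟨s, i⟩)) * qtr W P (W.push (ι s i) (W.map (q s i) 1) * y))
      fun s _ => Finset.sum_eq_zero fun i _ => by rw [hcomp', zero_mul], add_zero] at h1
    exact h1
  -- the divisor `A`
  obtain ⟨t0, ht0, ht0ne⟩ := h.point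
  have hnone : c none = 0 := by
    have h1 := key2 (W.map p (W.cl T t0)) (alg_map p (cl_mem_alg ht0))
    rw [Finset.sum_eq_zero fun i _ => by
      rw [← map_mul, h.pull_zero, mul_zero], add_zero, alg_comm hαm, hfib,
      qtr_cl (by rw [hT]; exact ht0)] at h1
    exact (mul_eq_zero.1 h1).resolve_right (mul_ne_zero he ht0ne)
  -- the divisors on `T`
  have hT0 : (fun i : Fin r => c (some (Sum.inl i))) = 0 := by
    apply hd
    rw [mem_ntDiv]
    intro b hb
    rw [hT] at hb
    have h1 := key2 (W.map p b * α) (alg_mul (i := 2) (j := 1) (alg_map p hb) hαm)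
    rw [hnone, zero_mul, zero_add] at h1
    let τ : alg W T 1 →ₗ[ℚ] ℚ := ((qf W T).flip b) ∘ₗ (alg W T 1).subtype
    change τ (∑ i, c (some (Sum.inl i)) • d i) = 0
    rw [map_sum]
    have h2 : ∑ i, c (some (Sum.inl i)) * qtr W P (W.map p (d i : W.H T) * (W.map p b * α)) =
        e * ∑ i, τ (c (some (Sum.inl i)) • d i) := by
      rw [Finset.mul_sum]
      refine Finset.sum_congr rfl fun i _ => ?_
      rw [← mul_assoc, ← map_mul, hfib, map_smul]
      change _ = e * (_ * qtr W T ((d i : W.H T) * b))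
      ring
    rw [h2] at h1
    exact (mul_eq_zero.1 h1).resolve_left he
  funext x
  match x with
  | none => exact hnone
  | some (Sum.inl i) => exact congrFun hT0 i
  | some (Sum.inr σ) => exact hcomp' σ.1 σ.2

/-- **Semistable families of rational curves over threefolds are good.** -/
theorem good_family (h : IsRationalFamily W p A δ ι q M) : Good W P := by
  classical
  have hT := h.dimT
  have : Fact (1 ≤ T.dim) := ⟨by omega⟩
  obtain ⟨r, hr⟩ : ∃ r, finrank ℚ (alg W T 1 ⧸ ntDiv W T) = r := ⟨_, rfl⟩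
  obtain ⟨d, hd⟩ := exists_indep' (ntDiv W T) hr
  refine ⟨h.dimP, r + Fintype.card (Σ s, Fin (m s)), ?_, family_divisors h d hd⟩
  refine (negLE_main h hr).add (negLE_red h) (fun v w => q2_symm _ _) (fun v w => q2_symm _ _)
    (mainL h) (redL h) (fun x => rfl) (fun x => rfl) (main_orth h) q2_symm ?_
  rintro ⟨_, z, hz, rfl⟩
  obtain ⟨a, b, ha, hb, y, hy, hz2⟩ := h.gen z hz
  refine ⟨(⟨W.cl T a, cl_mem_alg ha⟩, ⟨W.cl T b, cl_mem_alg hb⟩),
    fun s i => ⟨W.cl (Δ s) (y s i), cl_mem_alg (hy s i)⟩, ?_⟩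
  apply Subtype.ext
  change W.map p (W.cl T a) * W.cl P A + W.map p (W.cl T b) +
    ((∑ s, ∑ i, compL h s i ⟨W.cl (Δ s) (y s i), cl_mem_alg (hy s i)⟩ : alg W P 2) : W.H P) =
      W.cl P z
  rw [hz2.cl, map_add (W.cl P), map_add (W.cl P), W.cl_mul, W.cl_pull, W.cl_pull, map_sum]
  congr 1
  rw [Submodule.coe_sum]
  refine Finset.sum_congr rfl fun s _ => ?_
  rw [map_sum, Submodule.coe_sum]
  refine Finset.sum_congr rfl fun i _ => ?_
  rw [compL_coe, W.cl_push, W.cl_pull]

end Pool.Agent.H934.HS
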