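import Pool.Agent.H934.HS.Basic

/-!
# The intersection form on the classes of codimension two, and divisors modulo numerical equivalence
-/

open CategoryTheory AlgebraicGeometry Module

universe u v

namespace Pool.Agent.H934.HS

open Pool.Agent.H914 Pool.Agent.H914.VarClass Pool.Agent.H914.VarClass.Obj
  Pool.Agent.H914.WeilCohomology

variable {k : Type u} [Field k] {𝒱 : VarClass k} {ops : CycleOps 𝒱}

/-- The rational bilinear form `(a, b) ↦ Tr (a b)`. -/
noncomputable def qf (W : WeilCohomology.{u, v} ops) (X : 𝒱.Obj) : W.H X →ₗ[ℚ] W.H X →ₗ[ℚ] ℚ :=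
  LinearMap.mk₂ ℚ (fun a b => qtr W X (a * b))
    (fun a b c => by rw [add_mul, map_add])
    (fun q a b => by rw [rat_smul, smul_mul_assoc, ← rat_smul, map_smul])
    (fun a b c => by rw [mul_add, map_add])
    (fun q a b => by rw [rat_smul, mul_smul_comm, ← rat_smul, map_smul])

/-- The intersection form on the classes of the cycles of codimension two. -/
noncomputable def q2 (W : WeilCohomology.{u, v} ops) (X : 𝒱.Obj) :
    alg W X 2 →ₗ[ℚ] alg W X 2 →ₗ[ℚ] ℚ :=
  (qf W X).domRestrict₁₂ (alg W X 2) (alg W X 2)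

variable {W : WeilCohomology.{u, v} ops} {X Y : 𝒱.Obj}

lemma q2_apply (a b : alg W X 2) : q2 W X a b = qtr W X ((a : W.H X) * b) := rfl

lemma q2_symm (a b : alg W X 2) : q2 W X a b = q2 W X b a := by
  rw [q2_apply, q2_apply, alg_comm a.2]

/-- Multiplication of divisor classes with the class `D` of a divisor. -/
noncomputable def mulL {D : W.H X} (hD : D ∈ alg W X 1) : alg W X 1 →ₗ[ℚ] alg W X 2 where
  toFun a := ⟨D * a, alg_mul hD a.2⟩
  map_add' a b := Subtype.ext (mul_add _ _ _)
  map_smul' q a := Subtype.ext (by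
    change D * (q • (a : W.H X)) = q • (D * (a : W.H X))
    rw [rat_smul, rat_smul, mul_smul_comm])

@[simp] lemma mulL_coe {D : W.H X} (hD : D ∈ alg W X 1) (a : alg W X 1) :
    ((mulL hD a : alg W X 2) : W.H X) = D * a := rfl

/-- The divisor classes which are numerically equivalent to zero. -/
noncomputable def ntDiv (W : WeilCohomology.{u, v} ops) (X : 𝒱.Obj) : Submodule ℚ (alg W X 1) where
  carrier := {c | ∀ d ∈ alg W X (X.dim - 1), qtr W X ((c : W.H X) * d) = 0}
  add_mem' := by
    intro a b ha hb d hd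
    change qtr W X (((a : W.H X) + b) * d) = 0
    rw [add_mul, map_add, ha d hd, hb d hd, add_zero]
  zero_mem' := by
    intro d _
    change qtr W X ((0 : W.H X) * d) = 0
    rw [zero_mul, map_zero]
  smul_mem' := by
    intro q a ha d hd
    change qtr W X ((q • (a : W.H X)) * d) = 0
    rw [rat_smul, smul_mul_assoc, ← rat_smul, map_smul, ha d hd, smul_zero]

lemma mem_ntDiv {c : alg W X 1} :
    c ∈ ntDiv W X ↔ ∀ d ∈ alg W X (X.dim - 1), qtr W X ((c : W.H X) * d) = 0 := Iff.rfl

/-- The group of divisors modulo numerical equivalence has finite rank. -/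
instance finite_quot (W : WeilCohomology.{u, v} ops) (X : 𝒱.Obj) [hX : Fact (1 ≤ X.dim)] :
    FiniteDimensional ℚ (alg W X 1 ⧸ ntDiv W X) := by
  classical
  -- finitely many classes which span the same space over `K`
  obtain ⟨t, ht, hspan⟩ : ∃ t : Finset (W.H X), (∀ d ∈ t, d ∈ alg W X (X.dim - 1)) ∧
      ∀ d ∈ alg W X (X.dim - 1), d ∈ Submodule.span W.K (t : Set (W.H X)) := by
    obtain ⟨t, hts, -, hsp, -⟩ := Submodule.exists_finset_span_eq_linearIndepOn W.K
      ((alg W X (X.dim - 1) : Submodule ℚ (W.H X)) : Set (W.H X))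
    exact ⟨t, fun d hd => hts hd, fun d hd => by rw [hsp]; exact Submodule.subset_span hd⟩
  let F : alg W X 1 →ₗ[ℚ] (t → ℚ) := LinearMap.pi fun d =>
    ((qf W X).flip (d : W.H X)) ∘ₗ (alg W X 1).subtype
  have hF : ∀ c d, F c d = qtr W X ((c : W.H X) * (d : W.H X)) := fun c d => rfl
  have hker : LinearMap.ker F ≤ ntDiv W X := by
    intro c hc d hd
    have h1 : ∀ e ∈ Submodule.span W.K (t : Set (W.H X)), W.tr X ((c : W.H X) * e) = 0 := by
      intro e he
      refine Submodule.span_induction (p := fun e _ => W.tr X ((c : W.H X) * e) = 0) ?_ ?_ ?_ ?_ he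
      · intro e he
        have h2 : F c ⟨e, he⟩ = 0 := by rw [LinearMap.mem_ker.1 hc]; rfl
        rw [hF] at h2
        have h3 : (c : W.H X) * e ∈ alg W X X.dim := by
          have := alg_mul c.2 (ht e he)
          rwa [Nat.add_sub_cancel' hX.out] at this
        rw [← cast_qtr h3]
        rw [h2, Rat.cast_zero]
      · rw [mul_zero, map_zero]
      · intro x y _ _ hx hy
        rw [mul_add, map_add, hx, hy, add_zero]
      · intro a x _ hx
        rw [mul_smul_comm, map_smul, hx, smul_zero]
    change retr W.K (W.tr X _) = 0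
    rw [h1 d (hspan d hd), map_zero]
  have : FiniteDimensional ℚ (alg W X 1 ⧸ LinearMap.ker F) :=
    LinearEquiv.finiteDimensional (LinearMap.quotKerEquivRange F).symm
  exact Module.Finite.of_surjective ((LinearMap.ker F).mapQ (ntDiv W X) LinearMap.id (by
    intro x hx; exact hker hx)) (by
      intro x
      obtain ⟨x, rfl⟩ := Submodule.Quotient.mk_surjective _ x
      exact ⟨Submodule.Quotient.mk x, rfl⟩)

end Pool.Agent.H934.HS
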