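import Pool.Agent.H934.HS.Lin2

/-!
# The negative index of a symmetric bilinear form: orthogonal sums
-/

open Module

namespace Pool.Agent.H934.HS

section

variable {V : Type*} [AddCommGroup V] [Module ℚ V] {Q : V →ₗ[ℚ] V →ₗ[ℚ] ℚ} {m : ℕ}

/-- On a finite-dimensional space there are `m` linear functionals such that the form is positive
semidefinite on their common kernel. -/
lemma NegLE.exists_coords (hQ : NegLE Q m) (hsymm : ∀ v w, Q v w = Q w v) {S : Type*}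
    [AddCommGroup S] [Module ℚ S] [FiniteDimensional ℚ S] (f : S →ₗ[ℚ] V) :
    ∃ g : S →ₗ[ℚ] (Fin m → ℚ), ∀ s, g s = 0 → 0 ≤ Q (f s) (f s) := by
  classical
  let V' := LinearMap.range f
  let B : LinearMap.BilinForm ℚ V' := Q.domRestrict₁₂ V' V'
  have hB : ∀ x y : V', B x y = Q x y := fun _ _ => rfl
  have hBs : LinearMap.IsSymm B := ⟨fun x y => by rw [hB, hB]; exact hsymm _ _⟩
  obtain ⟨b, hb⟩ := LinearMap.BilinForm.exists_orthogonal_basis hBs
  have hb' : ∀ i j, i ≠ j → Q (b i : V) (b j) = 0 := fun i j hij => hb hij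
  let N := {i : Fin (finrank ℚ V') // Q (b i : V) (b i) < 0}
  have hN : Fintype.card N ≤ m := hQ.card_le (fun i : N => (b i.1 : V)) (fun i => i.2)
    (fun i j hij => hb' _ _ (fun h => hij (Subtype.ext h)))
  let f' : S →ₗ[ℚ] V' := f.rangeRestrict
  have hf' : ∀ s, (f' s : V) = f s := fun _ => rfl
  obtain ⟨e⟩ : Nonempty (N ↪ Fin m) := by
    apply Function.Embedding.nonempty_of_card_le
    simpa using hN
  -- coordinates indexed by `Fin m`, zero outside the range of `e`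
  let g : S →ₗ[ℚ] (Fin m → ℚ) := LinearMap.pi fun i =>
    if h : ∃ n : N, e n = i then (b.coord h.choose.1).comp f' else 0
  have hg : ∀ s (n : N), g s (e n) = b.repr (f' s) n.1 := by
    intro s n
    have h : ∃ n' : N, e n' = e n := ⟨n, rfl⟩
    have h2 : h.choose = n := e.injective h.choose_spec
    change (if h : ∃ n' : N, e n' = e n then (b.coord h.choose.1).comp f' else 0) s = _
    rw [dif_pos h, h2]
    rfl
  refine ⟨g, fun s hs => ?_⟩
  have hzero : ∀ i, Q (b i : V) (b i) < 0 → b.repr (f' s) i = 0 := fun i hi => by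
    have := congrFun hs (e ⟨i, hi⟩)
    rwa [hg] at this
  have hexp : f s = ∑ i, b.repr (f' s) i • (b i : V) := by
    have := congrArg (Submodule.subtype V') (b.sum_repr (f' s))
    rw [map_sum] at this
    rw [← hf' s]
    simpa using this.symm
  have hsq := sq_sum (Q := Q) (fun i => (b i : V)) hb' (fun i => b.repr (f' s) i)
  rw [← hexp] at hsq
  rw [hsq]
  apply Finset.sum_nonneg
  intro i _
  by_cases hi : Q (b i : V) (b i) < 0
  · rw [hzero i hi]; simp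
  · exact mul_nonneg (sq_nonneg _) (not_lt.1 hi)

/-- **The negative index of a form which is a quotient of an orthogonal sum.** -/
theorem NegLE.add {V₁ V₂ : Type*} [AddCommGroup V₁] [Module ℚ V₁] [AddCommGroup V₂] [Module ℚ V₂]
    {Q₁ : V₁ →ₗ[ℚ] V₁ →ₗ[ℚ] ℚ} {Q₂ : V₂ →ₗ[ℚ] V₂ →ₗ[ℚ] ℚ} {m₁ m₂ : ℕ} (h₁ : NegLE Q₁ m₁)
    (h₂ : NegLE Q₂ m₂) (hs₁ : ∀ v w, Q₁ v w = Q₁ w v) (hs₂ : ∀ v w, Q₂ v w = Q₂ w v)
    (u₁ : V₁ →ₗ[ℚ] V) (u₂ : V₂ →ₗ[ℚ] V) (hu₁ : ∀ x, Q (u₁ x) (u₁ x) = Q₁ x x)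
    (hu₂ : ∀ x, Q (u₂ x) (u₂ x) = Q₂ x x) (hu : ∀ x y, Q (u₁ x) (u₂ y) = 0)
    (hsymm : ∀ v w, Q v w = Q w v) (hsurj : ∀ v, ∃ x y, u₁ x + u₂ y = v) :
    NegLE Q (m₁ + m₂) := by
  rintro ⟨v, hv1, hv2⟩
  choose x y hxy using fun i => hsurj (v i)
  let ι₁ : (Fin (m₁ + m₂ + 1) → ℚ) →ₗ[ℚ] V₁ := Fintype.linearCombination ℚ x
  let ι₂ : (Fin (m₁ + m₂ + 1) → ℚ) →ₗ[ℚ] V₂ := Fintype.linearCombination ℚ y
  have hι : ∀ c : Fin (m₁ + m₂ + 1) → ℚ, u₁ (ι₁ c) + u₂ (ι₂ c) = ∑ i, c i • v i := by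
    intro c
    change u₁ (∑ i, c i • x i) + u₂ (∑ i, c i • y i) = _
    rw [map_sum, map_sum, ← Finset.sum_add_distrib]
    apply Finset.sum_congr rfl
    intro i _
    rw [map_smul, map_smul, ← smul_add, hxy]
  obtain ⟨g₁, hg₁⟩ := h₁.exists_coords hs₁ ι₁
  obtain ⟨g₂, hg₂⟩ := h₂.exists_coords hs₂ ι₂
  let g : (Fin (m₁ + m₂ + 1) → ℚ) →ₗ[ℚ] ((Fin m₁ → ℚ) × (Fin m₂ → ℚ)) := g₁.prod g₂
  have hker : LinearMap.ker g ≠ ⊥ := by
    intro h
    have hinj := LinearMap.ker_eq_bot.1 h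
    have := LinearMap.finrank_le_finrank_of_injective hinj
    simp at this
  obtain ⟨c, hc, hc0⟩ := (Submodule.ne_bot_iff _).1 hker
  have hc' : g₁ c = 0 ∧ g₂ c = 0 := by
    rw [LinearMap.mem_ker] at hc
    exact ⟨congrArg Prod.fst hc, congrArg Prod.snd hc⟩
  have h1 := hg₁ c hc'.1
  have h2 := hg₂ c hc'.2
  have h3 := sq_sum v hv2 c
  rw [← hι] at h3
  simp only [map_add, LinearMap.add_apply] at h3
  rw [hu₁, hu₂, hu, hsymm (u₂ _) (u₁ _), hu] at h3
  obtain ⟨i, hi⟩ := Function.ne_iff.1 hc0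
  have h4 : ∑ i, c i ^ 2 * Q (v i) (v i) < 0 :=
    Finset.sum_neg' (fun i _ => mul_nonpos_of_nonneg_of_nonpos (sq_nonneg _) (hv1 i).le)
      ⟨i, Finset.mem_univ i, mul_neg_of_pos_of_neg
        (lt_of_le_of_ne (sq_nonneg _) (pow_ne_zero 2 hi).symm) (hv1 i)⟩
  linarith

/-- If the form is positive semidefinite on the kernel of `m` functionals, then its negative index
is at most `m`. -/
lemma negLE_of_coords (g : V →ₗ[ℚ] (Fin m → ℚ))
    (hg : ∀ v, g v = 0 → 0 ≤ Q v v) : NegLE Q m := by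
  rintro ⟨v, hv1, hv2⟩
  let ι : (Fin (m + 1) → ℚ) →ₗ[ℚ] V := Fintype.linearCombination ℚ v
  have hker : LinearMap.ker (g ∘ₗ ι) ≠ ⊥ := by
    intro h
    have hinj := LinearMap.ker_eq_bot.1 h
    have := LinearMap.finrank_le_finrank_of_injective hinj
    simp at this
  obtain ⟨c, hc, hc0⟩ := (Submodule.ne_bot_iff _).1 hker
  have h1 := hg (ι c) hc
  have h3 := sq_sum v hv2 c
  have hι : ι c = ∑ i, c i • v i := rfl
  rw [← hι] at h3
  obtain ⟨i, hi⟩ := Function.ne_iff.1 hc0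
  have h4 : ∑ i, c i ^ 2 * Q (v i) (v i) < 0 :=
    Finset.sum_neg' (fun i _ => mul_nonpos_of_nonneg_of_nonpos (sq_nonneg _) (hv1 i).le)
      ⟨i, Finset.mem_univ i, mul_neg_of_pos_of_neg
        (lt_of_le_of_ne (sq_nonneg _) (pow_ne_zero 2 hi).symm) (hv1 i)⟩
  linarith

/-- Strictness of the positivity on the primitive classes. -/
theorem strict_of_primitive {L : Type*} [AddCommGroup L] [Module ℚ L]
    (hsymm : ∀ v w, Q v w = Q w v) (h : L →ₗ[ℚ] V) (N : Submodule ℚ L)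
    [FiniteDimensional ℚ (L ⧸ N)] (hN1 : ∀ w ∈ N, ∀ v, Q v (h w) = 0)
    (hN2 : ∀ w, (∀ w', Q (h w) (h w') = 0) → w ∈ N)
    (hprim : ∀ x, (∀ w, Q x (h w) = 0) → 0 ≤ Q x x) (z : V) (hz : ∀ w, Q z (h w) = 0)
    (hz0 : Q z z = 0) (v : V) : Q z v = 0 := by
  let G : L →ₗ[ℚ] V →ₗ[ℚ] ℚ := (Q.compl₂ h).flip
  have hG : ∀ w v, G w v = Q v (h w) := fun _ _ => rfl
  have hGN : N ≤ LinearMap.ker G := fun w hw => by
    rw [LinearMap.mem_ker]
    apply LinearMap.ext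
    intro v
    rw [hG, hN1 w hw v]
    rfl
  let Ψ : V →ₗ[ℚ] Dual ℚ (L ⧸ N) := (N.liftQ G hGN).flip
  have hΨ : ∀ v w, Ψ v (N.mkQ w) = Q v (h w) := fun v w => by
    change (N.liftQ G hGN) (Submodule.Quotient.mk w) v = _
    rw [Submodule.liftQ_apply, hG]
  have hΨN : N ≤ LinearMap.ker (Ψ ∘ₗ h) := fun w hw => by
    rw [LinearMap.mem_ker]
    apply LinearMap.ext
    intro w'
    obtain ⟨w', rfl⟩ := N.mkQ_surjective w'
    rw [LinearMap.comp_apply, hΨ, hsymm, hN1 w hw]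
    rfl
  let J : (L ⧸ N) →ₗ[ℚ] Dual ℚ (L ⧸ N) := N.liftQ (Ψ ∘ₗ h) hΨN
  have hJ : ∀ w, J (N.mkQ w) = Ψ (h w) := fun w => Submodule.liftQ_apply _ _ _
  have hJinj : Function.Injective J := by
    rw [← LinearMap.ker_eq_bot, LinearMap.ker_eq_bot']
    intro w hw
    obtain ⟨w, rfl⟩ := N.mkQ_surjective w
    rw [hJ] at hw
    rw [Submodule.mkQ_apply, Submodule.Quotient.mk_eq_zero]
    apply hN2
    intro w'
    rw [← hΨ, hw]
    rfl
  have hJsurj : Function.Surjective J :=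
    (LinearMap.injective_iff_surjective_of_finrank_eq_finrank Subspace.dual_finrank_eq.symm).1 hJinj
  -- the decomposition of `v`
  obtain ⟨w, hw⟩ := hJsurj (Ψ v)
  obtain ⟨w, rfl⟩ := N.mkQ_surjective w
  rw [hJ] at hw
  have hx : ∀ w', Q (v - h w) (h w') = 0 := fun w' => by
    rw [map_sub, LinearMap.sub_apply, ← hΨ, ← hΨ, hw, sub_self]
  have h1 : Q z v = Q z (v - h w) := by
    rw [map_sub, hz, sub_zero]
  rw [h1]
  set x := v - h w
  -- Cauchy-Schwarz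
  by_contra hne
  have h2 : ∀ t : ℚ, 0 ≤ Q x x + 2 * t * Q z x := by
    intro t
    have h3 := hprim (x + t • z) (fun w' => by
      rw [map_add, LinearMap.add_apply, map_smul, LinearMap.smul_apply, hx, hz]
      simp)
    simp only [map_add, LinearMap.add_apply, map_smul, LinearMap.smul_apply, smul_eq_mul] at h3
    rw [hz0, hsymm x z] at h3
    linarith
  have h4 := h2 (-(Q x x + 1) / (2 * Q z x))
  have h5 : 2 * (-(Q x x + 1) / (2 * Q z x)) * Q z x = -(Q x x + 1) := by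
    field_simp
  rw [h5] at h4
  linarith

/-- A basis of the quotient lifts to a family which is independent modulo `N`. -/
lemma exists_indep' {L : Type*} [AddCommGroup L] [Module ℚ L] (N : Submodule ℚ L)
    [FiniteDimensional ℚ (L ⧸ N)] (hm : finrank ℚ (L ⧸ N) = m) :
    ∃ d : Fin m → L, ∀ c : Fin m → ℚ, ∑ i, c i • d i ∈ N → c = 0 := by
  let b := Module.finBasisOfFinrankEq ℚ (L ⧸ N) hm
  choose d hd using fun i => N.mkQ_surjective (b i)
  refine ⟨d, fun c hc => ?_⟩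
  have h1 : ∑ i, c i • b i = 0 := by
    rw [← (Submodule.Quotient.mk_eq_zero N).2 hc, ← Submodule.mkQ_apply, map_sum]
    apply Finset.sum_congr rfl
    intro i _
    rw [map_smul, hd]
  funext i
  exact (Fintype.linearIndependent_iff.1 b.linearIndependent) c h1 i

end

end Pool.Agent.H934.HS
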