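import Pool.Agent.H934.HS.Form
import Pool.Agent.H934.HS.Lin3

/-!
# Fourfolds whose intersection form in codimension two has few negative squares
-/

open CategoryTheory AlgebraicGeometry Module

universe u v

namespace Pool.Agent.H934.HS

open Pool.Agent.H914 Pool.Agent.H914.VarClass Pool.Agent.H914.VarClass.Obj
  Pool.Agent.H914.WeilCohomology

variable {k : Type u} [Field k] {𝒱 : VarClass k} {ops : CycleOps 𝒱}

/-- The intersection form on the classes of codimension two has less negative squares than the rank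
of the group of divisors modulo numerical equivalence. -/
def Good (W : WeilCohomology.{u, v} ops) (X : 𝒱.Obj) : Prop :=
  X.dim = 4 ∧ ∃ m, NegLE (q2 W X) m ∧ ∃ d : Fin (m + 1) → alg W X 1,
    ∀ c : Fin (m + 1) → ℚ, ∑ i, c i • d i ∈ ntDiv W X → c = 0

variable {W : WeilCohomology.{u, v} ops} {X Y : 𝒱.Obj}

section

variable {D : X.Cycles}

lemma HodgeIndex.mem (h : HodgeIndex W X D) : W.cl X D ∈ alg W X 1 := cl_mem_alg h.isCyc

lemma HodgeIndex.pos_qtr (h : HodgeIndex W X D) : 0 < qtr W X (W.cl X D ^ X.dim) := by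
  have h1 : X.IsCyc X.dim (divPow ops D X.dim X.V.fundCycle) :=
    isCyc_divPow h.isCyc X.V.fundCycle_mem X.dim
  rw [← mul_one (W.cl X D ^ X.dim), ← W.cl_fund X, ← divPow_cl, qtr_cl h1]
  exact h.pos

/-- The Hodge index theorem in terms of classes. -/
lemma HodgeIndex.neg (h : HodgeIndex W X D) (hn : 2 ≤ X.dim) {a : W.H X} (ha : a ∈ alg W X 1)
    (h0 : qtr W X (W.cl X D ^ (X.dim - 1) * a) = 0) (hne : a ≠ 0) :
    qtr W X (W.cl X D ^ (X.dim - 2) * (a * a)) < 0 := by
  obtain ⟨z, hz, rfl⟩ := ha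
  have hp : W.cl X (divPow ops D (X.dim - 1) z) = 0 := by
    rw [divPow_cl]
    apply alg_eq_zero_of_top _ h0
    have := alg_mul (alg_pow h.mem (X.dim - 1)) (cl_mem_alg (W := W) hz)
    rwa [mul_one, Nat.sub_add_cancel (by omega)] at this
  have h1 := h.index z hz hp hne
  have h2 : X.IsCyc (X.dim - 2 + 1) (divPow ops D (X.dim - 2) z) := isCyc_divPow h.isCyc hz _
  rw [inum_eq (W := W) hz h2 (by omega), divPow_cl] at h1
  have h3 : W.cl X z * (W.cl X D ^ (X.dim - 2) * W.cl X z) =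
      W.cl X D ^ (X.dim - 2) * (W.cl X z * W.cl X z) := by
    rw [← mul_assoc, ← mul_assoc, alg_comm (cl_mem_alg hz)]
  rwa [h3] at h1

/-- **The Lorentz inequality.** -/
lemma HodgeIndex.lorentz (h : HodgeIndex W X D) (hn : 2 ≤ X.dim) {a : W.H X}
    (ha : a ∈ alg W X 1) :
    qtr W X (W.cl X D ^ (X.dim - 2) * (a * a)) * qtr W X (W.cl X D ^ X.dim) ≤
      qtr W X (W.cl X D ^ (X.dim - 1) * a) ^ 2 := by
  set ξ := W.cl X D with hξ
  set T := qtr W X (ξ ^ X.dim) with hT
  set s := qtr W X (ξ ^ (X.dim - 1) * a) with hs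
  have hTpos : 0 < T := h.pos_qtr
  have hξa : ξ ∈ alg W X 1 := h.mem
  set z := T • a - s • ξ with hz
  have hza : z ∈ alg W X 1 := sub_mem (Submodule.smul_mem _ _ ha) (Submodule.smul_mem _ _ hξa)
  have hsub : ∀ c : W.H X, qtr W X (c * z) = T * qtr W X (c * a) - s * qtr W X (c * ξ) := by
    intro c
    rw [hz, mul_sub, map_sub, rat_smul, rat_smul, mul_smul_comm, mul_smul_comm, ← rat_smul,
      ← rat_smul, map_smul, map_smul, smul_eq_mul, smul_eq_mul]
  have hp1 : ξ ^ (X.dim - 1) * ξ = ξ ^ X.dim := by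
    rw [← pow_succ, Nat.sub_add_cancel (by omega)]
  have hp2 : ξ ^ (X.dim - 2) * (ξ * ξ) = ξ ^ X.dim := by
    rw [← mul_assoc, ← pow_succ, ← pow_succ]
    congr 1; omega
  have hp3 : ξ ^ (X.dim - 2) * ξ = ξ ^ (X.dim - 1) := by
    rw [← pow_succ]
    congr 1; omega
  have h0 : qtr W X (ξ ^ (X.dim - 1) * z) = 0 := by
    rw [hsub, hp1, ← hT, ← hs]; ring
  have hle : qtr W X (ξ ^ (X.dim - 2) * (z * z)) ≤ 0 := by
    by_cases hz0 : z = 0
    · rw [hz0]; simp
    · exact (h.neg hn hza h0 hz0).le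
  have e1 : qtr W X (ξ ^ (X.dim - 2) * (z * z)) =
      T * (T * qtr W X (ξ ^ (X.dim - 2) * (a * a)) - s ^ 2) := by
    have e2 : ∀ b : W.H X, ξ ^ (X.dim - 2) * (z * b) = ξ ^ (X.dim - 2) * b * z := by
      intro b
      rw [alg_comm hza b, mul_assoc]
    rw [e2, hsub]
    have e3 : ∀ b ∈ alg W X 1, ξ ^ (X.dim - 2) * z * b = ξ ^ (X.dim - 2) * b * z := by
      intro b hb
      rw [mul_assoc, alg_comm hza b, mul_assoc]
    rw [e3 a ha, e3 ξ hξa, hsub, hsub, mul_assoc, mul_assoc, mul_assoc, mul_assoc, hp2,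
      ← alg_comm ha ξ, ← mul_assoc, ← mul_assoc]
    have e4 : ξ ^ (X.dim - 2) * a * ξ = ξ ^ (X.dim - 1) * a := by
      rw [mul_assoc, alg_comm ha ξ, ← mul_assoc, hp3]
    have e5 : ξ ^ (X.dim - 2) * a * a = ξ ^ (X.dim - 2) * (a * a) := mul_assoc _ _ _
    rw [e4, e5, ← hT, ← hs]
    ring
  rw [e1] at hle
  have : T * qtr W X (ξ ^ (X.dim - 2) * (a * a)) - s ^ 2 ≤ 0 := by
    by_contra hlt
    push Not at hlt
    have := mul_pos hTpos hlt
    linarith
  linarith

/-- A divisor class orthogonal to `D ^ (n - 2)` times all divisor classes is zero. -/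
lemma HodgeIndex.nondeg (h : HodgeIndex W X D) (hn : 2 ≤ X.dim) {a : W.H X} (ha : a ∈ alg W X 1)
    (h0 : ∀ b ∈ alg W X 1, qtr W X (W.cl X D ^ (X.dim - 2) * (a * b)) = 0) : a = 0 := by
  by_contra hne
  have h1 := h.neg hn ha (by
    have := h0 _ h.mem
    rw [alg_comm ha, ← mul_assoc, ← pow_succ] at this
    rwa [show X.dim - 2 + 1 = X.dim - 1 by omega] at this) hne
  rw [h0 a ha] at h1
  exact lt_irrefl _ h1

end

section

variable {D : X.Cycles}

lemma q2_mulL_mulL {a b : W.H X} (ha : a ∈ alg W X 1) (hb : b ∈ alg W X 1) (x y : alg W X 1) :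
    q2 W X (mulL ha x) (mulL hb y) = qtr W X (a * b * ((x : W.H X) * y)) := by
  rw [q2_apply, mulL_coe, mulL_coe]
  congr 1
  rw [mul_assoc, mul_assoc]
  congr 1
  rw [← mul_assoc, ← mul_assoc, alg_comm x.2 b]

/-- Multiplication by the class of `D`. -/
lemma hN1 (hX : X.dim = 4) {a : W.H X} (ha : a ∈ alg W X 1) :
    ∀ w ∈ ntDiv W X, ∀ v, q2 W X v (mulL ha w) = 0 := by
  intro w hw v
  rw [q2_apply, mulL_coe, ← mul_assoc, ← alg_comm w.2]
  apply hw
  rw [hX]
  exact alg_mul (i := 2) (j := 1) v.2 ha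

lemma HodgeIndex.hN2 (h : HodgeIndex W X D) (hX : X.dim = 4) :
    ∀ w, (∀ w', q2 W X (mulL h.mem w) (mulL h.mem w') = 0) → w ∈ ntDiv W X := by
  intro w hw
  have : (w : W.H X) = 0 := by
    apply h.nondeg (by omega) w.2
    intro b hb
    have := hw ⟨b, hb⟩
    rw [q2_mulL_mulL] at this
    rw [hX]
    rw [pow_two]
    exact this
  have h2 : w = 0 := Subtype.ext this
  rw [h2]
  exact zero_mem _

/-- A fourfold is good if the squares of its primitive classes are nonnegative. -/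
theorem good_of_prim (h : HodgeIndex W X D) (hX : X.dim = 4)
    (hprim : ∀ x, (∀ w, q2 W X x (mulL h.mem w) = 0) → 0 ≤ q2 W X x x) : Good W X := by
  have : Fact (1 ≤ X.dim) := ⟨by omega⟩
  let D' : alg W X 1 := ⟨W.cl X D, h.mem⟩
  have hD : 0 < q2 W X (mulL h.mem D') (mulL h.mem D') := by
    rw [q2_mulL_mulL]
    have := h.pos_qtr
    rw [hX] at this
    have e : W.cl X D * W.cl X D * (W.cl X D * W.cl X D) = W.cl X D ^ 4 := by
      simp only [pow_succ, pow_zero, one_mul, mul_assoc]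
    change 0 < qtr W X (W.cl X D * W.cl X D * (W.cl X D * W.cl X D))
    rw [e]
    exact this
  have hDN : D' ∉ ntDiv W X := fun hD' => by
    have := hN1 hX h.mem D' hD' (mulL h.mem D')
    rw [this] at hD
    exact lt_irrefl _ hD
  obtain ⟨m, hm⟩ : ∃ m, finrank ℚ (alg W X 1 ⧸ ntDiv W X) = m + 1 := by
    apply Nat.exists_eq_succ_of_ne_zero
    intro h0
    have := Module.finrank_zero_iff.1 h0
    apply hDN
    rw [← Submodule.Quotient.mk_eq_zero]
    exact Subsingleton.elim _ _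
  exact ⟨hX, m, negLE_of_primitive q2_symm (mulL h.mem) (ntDiv W X) hm (hN1 hX h.mem) (h.hN2 hX) D'
    hD hprim, exists_indep _ hm⟩

/-- The positivity of the squares of the primitive classes on a good fourfold. -/
theorem prim_of_good (hG : Good W X) (h : HodgeIndex W X D) (x : alg W X 2)
    (hx : ∀ w, q2 W X x (mulL h.mem w) = 0) : 0 ≤ q2 W X x x := by
  obtain ⟨hX, m, hneg, d, hd⟩ := hG
  let D' : alg W X 1 := ⟨W.cl X D, h.mem⟩
  refine nonneg_of_orthogonal q2_symm hneg (mulL h.mem) (mulL h.mem) ?_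
    ((q2 W X).flip (mulL h.mem D') ∘ₗ mulL h.mem) (ntDiv W X) d hd ?_ ?_ x hx
    (fun r _ => hx r)
  · intro a b
    rfl
  · intro w hw
    change q2 W X (mulL h.mem w) (mulL h.mem D') = 0 at hw
    rw [q2_mulL_mulL] at hw ⊢
    by_cases hw0 : (w : W.H X) = 0
    · rw [hw0]; simp
    · have := h.neg (by omega) w.2 (by
        rw [hX]
        have e : W.cl X D * W.cl X D * ((w : W.H X) * W.cl X D) = W.cl X D ^ (4 - 1) * w := by
          rw [alg_comm w.2]
          simp only [pow_succ, pow_zero, one_mul, mul_assoc]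
        rw [← e]
        exact hw) hw0
      rw [hX, pow_two] at this
      exact this.le
  · intro r hr hrN
    exact absurd (h.hN2 hX r fun w' => hr _) hrN

/-- **The standard conjecture of Hodge type for good fourfolds.** -/
theorem numHodge_of_good (hG : Good W X) (h : HodgeIndex W X D) : NumHodge ops X D := by
  have hX : X.dim = 4 := hG.1
  have : Fact (1 ≤ X.dim) := ⟨by omega⟩
  intro z hz hprim hnt
  let z' : alg W X 2 := ⟨W.cl X z, cl_mem_alg hz⟩
  have hq : inum ops z z = q2 W X z' z' := inum_eq (W := W) hz hz (by omega)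
  have hz' : ∀ w, q2 W X z' (mulL h.mem w) = 0 := by
    rintro ⟨_, w, hw, rfl⟩
    have h1 := hprim w (by rw [hX]; exact hw)
    rw [inum_eq (W := W) (ops.mul_mem h.isCyc hz) hw (by omega), W.cl_mul,
      alg_comm h.mem, mul_assoc] at h1
    exact h1
  rw [hq]
  refine lt_of_le_of_ne (prim_of_good hG h z' hz') (fun h0 => hnt ?_)
  intro w hw
  rw [hX] at hw
  have h2 := strict_of_primitive q2_symm (mulL h.mem) (ntDiv W X) (hN1 hX h.mem) (h.hN2 hX)
    (fun x hx => prim_of_good hG h x hx) z' hz' h0.symm ⟨W.cl X w, cl_mem_alg hw⟩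
  rw [inum_eq (W := W) hz hw (by omega)]
  exact h2

/-- Fourfolds for which the conjecture is known are good. -/
theorem good_of_numHodge (hX : X.dim = 4) (h : HodgeIndex W X D) (hH : NumHodge ops X D) :
    Good W X := by
  apply good_of_prim h hX
  rintro ⟨_, z, hz, rfl⟩ hx
  have hq : inum ops z z = qtr W X (W.cl X z * W.cl X z) := inum_eq (W := W) hz hz (by omega)
  change 0 ≤ qtr W X (W.cl X z * W.cl X z)
  rw [← hq]
  by_cases hnt : NumTriv ops X 2 z
  · rw [hnt z (by rw [hX]; exact hz)]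
  · refine (hH z hz ?_ hnt).le
    intro w hw
    rw [hX] at hw
    rw [inum_eq (W := W) (ops.mul_mem h.isCyc hz) hw (by omega), W.cl_mul,
      alg_comm h.mem, mul_assoc]
    exact hx ⟨W.cl X w, cl_mem_alg hw⟩

end

end Pool.Agent.H934.HS
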