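import Mathlib

/-!
# The negative index of a symmetric bilinear form over the rational numbers
-/

open Module

namespace Pool.Agent.H934.HS

/-- There are no `m + 1` pairwise orthogonal vectors with negative squares. -/
def NegLE {V : Type*} [AddCommGroup V] [Module ℚ V] (Q : V →ₗ[ℚ] V →ₗ[ℚ] ℚ) (m : ℕ) : Prop :=
  ¬ ∃ v : Fin (m + 1) → V, (∀ i, Q (v i) (v i) < 0) ∧ ∀ i j, i ≠ j → Q (v i) (v j) = 0

section

variable {V : Type*} [AddCommGroup V] [Module ℚ V] {Q : V →ₗ[ℚ] V →ₗ[ℚ] ℚ} {m : ℕ}

/-- The square of a combination of pairwise orthogonal vectors. -/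
lemma sq_sum {ι : Type*} [Fintype ι] (v : ι → V) (h : ∀ i j, i ≠ j → Q (v i) (v j) = 0)
    (c : ι → ℚ) : Q (∑ i, c i • v i) (∑ i, c i • v i) = ∑ i, c i ^ 2 * Q (v i) (v i) := by
  classical
  rw [map_sum Q, LinearMap.sum_apply]
  apply Finset.sum_congr rfl
  intro i _
  rw [map_sum (Q (c i • v i)), Finset.sum_eq_single i]
  · simp only [map_smul, LinearMap.smul_apply, smul_eq_mul]; ring
  · intro j _ hj
    simp [h i j (Ne.symm hj)]
  · intro hi; exact absurd (Finset.mem_univ i) hi

/-- A family of pairwise orthogonal vectors with negative squares indexed by a finite type has at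
most `m` members. -/
lemma NegLE.card_le (hQ : NegLE Q m) {ι : Type*} [Fintype ι] (v : ι → V)
    (h1 : ∀ i, Q (v i) (v i) < 0) (h2 : ∀ i j, i ≠ j → Q (v i) (v j) = 0) :
    Fintype.card ι ≤ m := by
  by_contra hlt
  push Not at hlt
  have e : Fin (m + 1) ↪ ι := by
    have : Fintype.card (Fin (m + 1)) ≤ Fintype.card ι := by simpa using hlt
    exact (Function.Embedding.nonempty_of_card_le this).some
  exact hQ ⟨fun i => v (e i), fun i => h1 _, fun i j hij => h2 _ _ (fun h => hij (e.injective h))⟩

/-- **A subspace on which the form is negative semidefinite, and which meets the radical of the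
whole form trivially, has dimension at most the negative index.** -/
theorem NegLE.finrank_le (hQ : NegLE Q m) (hsymm : ∀ v w, Q v w = Q w v) {S : Type*}
    [AddCommGroup S] [Module ℚ S] [FiniteDimensional ℚ S] (f : S →ₗ[ℚ] V)
    (hf : ∀ s, Q (f s) (f s) ≤ 0) (hinj : ∀ s, (∀ v, Q (f s) v = 0) → s = 0) :
    finrank ℚ S ≤ m := by
  classical
  -- a finite-dimensional subspace which detects the elements of `S`
  obtain ⟨V', hfin, hrange, hdet⟩ : ∃ V' : Submodule ℚ V, FiniteDimensional ℚ V' ∧
      (∀ s, f s ∈ V') ∧ ∀ s, (∀ v ∈ V', Q (f s) v = 0) → s = 0 := by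
    -- the functionals `Q (f ·) v` span the dual of `S`
    let Φ : V →ₗ[ℚ] Dual ℚ S := (Q.flip).compl₂ f |>.comp LinearMap.id
    have hΦ : ∀ v s, Φ v s = Q (f s) v := fun v s => rfl
    obtain ⟨t, ht⟩ : ∃ t : Finset V, Submodule.span ℚ (Φ '' (t : Set V)) = LinearMap.range Φ := by
      obtain ⟨b, hb⟩ := (IsNoetherian.noetherian (LinearMap.range Φ) :
        (LinearMap.range Φ).FG)
      have : ∀ x ∈ b, ∃ v, Φ v = x := fun x hx => by
        have : x ∈ Submodule.span ℚ (b : Set (Dual ℚ S)) := Submodule.subset_span hx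
        rw [hb] at this
        exact this
      choose! g hg using this
      refine ⟨b.image g, ?_⟩
      rw [← hb]
      congr 1
      ext x
      simp only [Finset.coe_image, Set.mem_image, Finset.mem_coe]
      constructor
      · rintro ⟨v, ⟨y, hy, rfl⟩, rfl⟩
        rwa [hg y hy]
      · intro hx
        exact ⟨g x, ⟨x, hx, rfl⟩, hg x hx⟩
    refine ⟨LinearMap.range f ⊔ Submodule.span ℚ (t : Set V), inferInstance, fun s =>
      Submodule.mem_sup_left ⟨s, rfl⟩, fun s hs => hinj s fun v => ?_⟩
    have h1 : Φ v ∈ Submodule.span ℚ (Φ '' (t : Set V)) := by rw [ht]; exact ⟨v, rfl⟩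
    rw [← hΦ]
    refine Submodule.span_induction (p := fun x _ => x s = 0) ?_ ?_ ?_ ?_ h1
    · rintro _ ⟨w, hw, rfl⟩
      rw [hΦ]
      exact hs w (Submodule.mem_sup_right (Submodule.subset_span hw))
    · rfl
    · intro x y _ _ hx hy
      rw [LinearMap.add_apply, hx, hy, add_zero]
    · intro c x _ hx
      rw [LinearMap.smul_apply, hx, smul_zero]
  -- an orthogonal basis of `V'`
  let B : LinearMap.BilinForm ℚ V' := Q.domRestrict₁₂ V' V'
  have hB : ∀ x y : V', B x y = Q x y := fun _ _ => rfl
  have hBs : LinearMap.IsSymm B := ⟨fun x y => by rw [hB, hB]; exact hsymm _ _⟩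
  obtain ⟨b, hb⟩ := LinearMap.BilinForm.exists_orthogonal_basis hBs
  have hb' : ∀ i j, i ≠ j → Q (b i : V) (b j) = 0 := fun i j hij => hb hij
  -- the negative coordinates
  let N := {i : Fin (finrank ℚ V') // Q (b i : V) (b i) < 0}
  have hN : Fintype.card N ≤ m := hQ.card_le (fun i : N => (b i.1 : V)) (fun i => i.2)
    (fun i j hij => hb' _ _ (fun h => hij (Subtype.ext h)))
  let f' : S →ₗ[ℚ] V' := f.codRestrict V' hrange
  have hf' : ∀ s, (f' s : V) = f s := fun _ => rfl
  let g : S →ₗ[ℚ] (N → ℚ) := LinearMap.pi fun i => (b.coord i.1).comp f'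
  have hg : ∀ s i, g s i = b.repr (f' s) i.1 := fun s i => rfl
  have hginj : Function.Injective g := by
    rw [← LinearMap.ker_eq_bot, LinearMap.ker_eq_bot']
    intro s hs
    have hzero : ∀ i, Q (b i : V) (b i) < 0 → b.repr (f' s) i = 0 := fun i hi => by
      have := congrFun hs ⟨i, hi⟩
      rwa [hg] at this
    have hexp : f s = ∑ i, b.repr (f' s) i • (b i : V) := by
      have := congrArg (Submodule.subtype V') (b.sum_repr (f' s))
      rw [map_sum] at this
      rw [← hf' s]
      simpa using this.symm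
    have hsq := sq_sum (Q := Q) (fun i => (b i : V)) hb' (fun i => b.repr (f' s) i)
    rw [← hexp] at hsq
    have hnn : ∀ i ∈ Finset.univ, 0 ≤ b.repr (f' s) i ^ 2 * Q (b i : V) (b i) := by
      intro i _
      by_cases hi : Q (b i : V) (b i) < 0
      · rw [hzero i hi]; simp
      · exact mul_nonneg (sq_nonneg _) (not_lt.1 hi)
    have h0 : ∑ i, b.repr (f' s) i ^ 2 * Q (b i : V) (b i) = 0 :=
      le_antisymm (by rw [← hsq]; exact hf s) (Finset.sum_nonneg hnn)
    have h3 := (Finset.sum_eq_zero_iff_of_nonneg hnn).1 h0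
    apply hdet
    intro v hv
    have hv' : v = ∑ i, b.repr ⟨v, hv⟩ i • (b i : V) := by
      have := congrArg (Submodule.subtype V') (b.sum_repr ⟨v, hv⟩)
      rw [map_sum] at this
      simpa using this.symm
    rw [hexp, map_sum, LinearMap.sum_apply]
    apply Finset.sum_eq_zero
    intro i _
    have h4 : b.repr (f' s) i * Q (b i : V) (b i) = 0 := by
      have := h3 i (Finset.mem_univ i)
      rcases mul_eq_zero.1 this with h | h
      · rw [pow_eq_zero_iff (two_ne_zero)] at h
        rw [h, zero_mul]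
      · rw [h, mul_zero]
    rw [map_smul, LinearMap.smul_apply, hv', map_sum, Finset.sum_eq_single i]
    · rw [map_smul, smul_eq_mul, smul_eq_mul]
      linear_combination b.repr ⟨v, hv⟩ i * h4
    · intro j _ hj
      rw [map_smul, hb' i j (Ne.symm hj), smul_zero]
    · intro hi; exact absurd (Finset.mem_univ i) hi
  calc finrank ℚ S ≤ finrank ℚ (N → ℚ) := LinearMap.finrank_le_finrank_of_injective hginj
    _ = Fintype.card N := by simp
    _ ≤ m := hN

end

end Pool.Agent.H934.HS
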