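import Pool.Agent.H934.HS.Lin

/-!
# The negative index of the intersection form on the codimension two classes of a fourfold
-/

open Module

namespace Pool.Agent.H934.HS

section

variable {L V : Type*} [AddCommGroup L] [Module ℚ L] [AddCommGroup V] [Module ℚ V]
  {Q : V →ₗ[ℚ] V →ₗ[ℚ] ℚ} {m : ℕ}

/-- **The orthogonal complement of `h L + A R₀`.** -/
theorem nonneg_of_orthogonal (hsymm : ∀ v w, Q v w = Q w v) (hneg : NegLE Q m)
    (h A : L →ₗ[ℚ] V) (hcomm : ∀ a b, Q (h a) (A b) = Q (A a) (h b)) (φ : L →ₗ[ℚ] ℚ)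
    (N : Submodule ℚ L) (d : Fin (m + 1) → L) (hd : ∀ c : Fin (m + 1) → ℚ, ∑ i, c i • d i ∈ N → c = 0)
    (hsemi : ∀ w, φ w = 0 → Q (h w) (h w) ≤ 0)
    (hR : ∀ r, (∀ v, Q (h r) v = 0) → r ∉ N → Q (A r) (A r) < 0)
    (y : V) (hy1 : ∀ w, Q y (h w) = 0) (hy2 : ∀ r, (∀ v, Q (h r) v = 0) → Q y (A r) = 0) :
    0 ≤ Q y y := by
  by_contra hlt
  push Not at hlt
  let ι : (Fin (m + 1) → ℚ) →ₗ[ℚ] L := Fintype.linearCombination ℚ d
  have hι : ∀ c, ι c = ∑ i, c i • d i := fun c => rfl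
  let W' : Submodule ℚ (Fin (m + 1) → ℚ) := LinearMap.ker (φ ∘ₗ ι)
  have hW' : m ≤ finrank ℚ W' := by
    have h1 := LinearMap.finrank_range_add_finrank_ker (φ ∘ₗ ι)
    have h2 : finrank ℚ (LinearMap.range (φ ∘ₗ ι)) ≤ 1 := by
      have := Submodule.finrank_le (LinearMap.range (φ ∘ₗ ι))
      simpa using this
    rw [finrank_fin_fun] at h1
    change _ + finrank ℚ W' = _ at h1
    omega
  let j : W' →ₗ[ℚ] L := ι ∘ₗ W'.subtype
  have hjφ : ∀ w, φ (j w) = 0 := fun w => w.2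
  have hjN : ∀ w, j w ∈ N → w = 0 := fun w hw => Subtype.ext (hd _ hw)
  let R' : Submodule ℚ W' := LinearMap.ker (Q ∘ₗ h ∘ₗ j)
  have hR' : ∀ w : W', w ∈ R' ↔ ∀ v, Q (h (j w)) v = 0 := by
    intro w
    rw [LinearMap.mem_ker]
    constructor
    · intro h0 v
      have := congrArg (fun F => F v) h0
      simpa using this
    · intro h0
      apply LinearMap.ext
      intro v
      simpa using h0 v
  obtain ⟨C, hC⟩ := Submodule.exists_isCompl R'
  let πR := R'.projection C hC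
  let πC := C.projection R' hC.symm
  have hπR : ∀ w, πR w ∈ R' := fun w => Submodule.projection_apply_mem hC w
  have hπC : ∀ w, πC w ∈ C := fun w => Submodule.projection_apply_mem hC.symm w
  have hsum : ∀ w, πR w + πC w = w := fun w => by
    have := Submodule.projection_add_projection_eq_self hC w
    exact this
  let f : (ℚ × W') →ₗ[ℚ] V :=
    (LinearMap.toSpanSingleton ℚ V y) ∘ₗ LinearMap.fst ℚ ℚ W' +
      (h ∘ₗ j ∘ₗ πC + A ∘ₗ j ∘ₗ πR) ∘ₗ LinearMap.snd ℚ ℚ W'
  have hf : ∀ t w, f (t, w) = t • y + (h (j (πC w)) + A (j (πR w))) := fun t w => rfl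
  have hcross : ∀ w w', Q (h (j (πC w))) (A (j (πR w'))) = 0 := by
    intro w w'
    rw [hcomm, hsymm]
    exact (hR' _).1 (hπR w') _
  have hy1' : ∀ w, Q (h w) y = 0 := fun w => by rw [hsymm]; exact hy1 w
  have hy2' : ∀ w, Q y (A (j (πR w))) = 0 := fun w => hy2 _ ((hR' _).1 (hπR w))
  have hy2'' : ∀ w, Q (A (j (πR w))) y = 0 := fun w => by rw [hsymm]; exact hy2' w
  have hAneg : ∀ w, Q (A (j (πR w))) (A (j (πR w))) ≤ 0 ∧
      (Q (A (j (πR w))) (A (j (πR w))) = 0 → πR w = 0) := by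
    intro w
    by_cases h0 : j (πR w) ∈ N
    · have := hjN _ h0
      rw [this]
      simp
    · have := hR _ ((hR' _).1 (hπR w)) h0
      exact ⟨this.le, fun h1 => absurd h1 this.ne⟩
  have hle := hneg.finrank_le hsymm f (by
    rintro ⟨t, w⟩
    have h1 : Q (f (t, w)) (f (t, w)) = t ^ 2 * Q y y + Q (h (j (πC w))) (h (j (πC w))) +
        Q (A (j (πR w))) (A (j (πR w))) := by
      rw [hf]
      simp only [map_add, map_smul, LinearMap.add_apply, LinearMap.smul_apply, smul_eq_mul]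
      rw [hy1, hy1', hy2', hy2'', hcross, hsymm (A (j (πR w))) (h (j (πC w))), hcross]
      ring
    rw [h1]
    have h2 := hsemi (j (πC w)) (hjφ _)
    have h3 := (hAneg w).1
    nlinarith [sq_nonneg t, mul_nonneg (sq_nonneg t) (neg_nonneg.2 hlt.le)]) (by
    rintro ⟨t, w⟩ h0
    have ht : t = 0 := by
      have h1 := h0 y
      rw [hf] at h1
      simp only [map_add, map_smul, LinearMap.add_apply, LinearMap.smul_apply, smul_eq_mul] at h1
      rw [hy1', hy2''] at h1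
      have : t * Q y y = 0 := by linarith
      exact (mul_eq_zero.1 this).resolve_right hlt.ne
    subst ht
    have hr : πR w = 0 := by
      apply (hAneg w).2
      have h1 := h0 (A (j (πR w)))
      rw [hf] at h1
      simp only [map_add, map_smul, LinearMap.add_apply, LinearMap.smul_apply, smul_eq_mul] at h1
      rw [hcross] at h1
      linarith
    have hc : πC w = 0 := by
      have h1 : πC w ∈ R' := by
        rw [hR']
        intro v
        have h2 := h0 v
        rw [hf, hr] at h2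
        simpa using h2
      have h2 : πC w ∈ R' ⊓ C := ⟨h1, hπC w⟩
      rw [hC.inf_eq_bot] at h2
      exact (Submodule.mem_bot _).1 h2
    have hw := hsum w
    rw [hr, hc, add_zero] at hw
    rw [← hw]
    rfl)
  have h5 : finrank ℚ (ℚ × W') = 1 + finrank ℚ W' := by
    rw [finrank_prod, finrank_self]
  omega

/-- **From positivity on the primitive classes to the negative index.** -/
theorem negLE_of_primitive (hsymm : ∀ v w, Q v w = Q w v) (h : L →ₗ[ℚ] V) (N : Submodule ℚ L)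
    [FiniteDimensional ℚ (L ⧸ N)] (hm : finrank ℚ (L ⧸ N) = m + 1)
    (hN1 : ∀ w ∈ N, ∀ v, Q v (h w) = 0)
    (hN2 : ∀ w, (∀ w', Q (h w) (h w') = 0) → w ∈ N) (H : L) (hH : 0 < Q (h H) (h H))
    (hprim : ∀ x, (∀ w, Q x (h w) = 0) → 0 ≤ Q x x) : NegLE Q m := by
  rintro ⟨v, hv1, hv2⟩
  -- the functionals
  let G : L →ₗ[ℚ] V →ₗ[ℚ] ℚ := (Q.compl₂ h).flip
  have hG : ∀ w v, G w v = Q v (h w) := fun _ _ => rfl
  have hGN : N ≤ LinearMap.ker G := fun w hw => by
    rw [LinearMap.mem_ker]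
    apply LinearMap.ext
    intro v
    rw [hG, hN1 w hw v]
    rfl
  let Ψ : V →ₗ[ℚ] Dual ℚ (L ⧸ N) := (N.liftQ G hGN).flip
  have hΨ : ∀ v w, Ψ v (N.mkQ w) = Q v (h w) := fun v w => by
    change (N.liftQ G hGN) (Submodule.Quotient.mk w) v = _
    rw [Submodule.liftQ_apply, hG]
  have hΨN : N ≤ LinearMap.ker (Ψ ∘ₗ h) := fun w hw => by
    rw [LinearMap.mem_ker]
    apply LinearMap.ext
    intro w'
    obtain ⟨w', rfl⟩ := N.mkQ_surjective w'
    rw [LinearMap.comp_apply, hΨ, hsymm, hN1 w hw]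
    rfl
  let J : (L ⧸ N) →ₗ[ℚ] Dual ℚ (L ⧸ N) := N.liftQ (Ψ ∘ₗ h) hΨN
  have hJ : ∀ w, J (N.mkQ w) = Ψ (h w) := fun w => Submodule.liftQ_apply _ _ _
  have hJinj : Function.Injective J := by
    rw [← LinearMap.ker_eq_bot, LinearMap.ker_eq_bot']
    intro w hw
    obtain ⟨w, rfl⟩ := N.mkQ_surjective w
    rw [hJ] at hw
    rw [Submodule.mkQ_apply, Submodule.Quotient.mk_eq_zero]
    apply hN2
    intro w'
    rw [← hΨ, hw]
    rfl
  have hJsurj : Function.Surjective J :=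
    (LinearMap.injective_iff_surjective_of_finrank_eq_finrank Subspace.dual_finrank_eq.symm).1 hJinj
  let e : (L ⧸ N) ≃ₗ[ℚ] Dual ℚ (L ⧸ N) := LinearEquiv.ofBijective J ⟨hJinj, hJsurj⟩
  have he : ∀ w, e w = J w := fun _ => rfl
  let ι : (Fin (m + 1) → ℚ) →ₗ[ℚ] V := Fintype.linearCombination ℚ v
  have hι : ∀ c, ι c = ∑ i, c i • v i := fun c => rfl
  have hsq : ∀ c, Q (ι c) (ι c) = ∑ i, c i ^ 2 * Q (v i) (v i) := fun c => sq_sum v hv2 c
  have hle : ∀ c, Q (ι c) (ι c) ≤ 0 := fun c => by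
    rw [hsq]
    exact Finset.sum_nonpos fun i _ => mul_nonpos_of_nonneg_of_nonpos (sq_nonneg _) (hv1 i).le
  have hlt : ∀ c, c ≠ 0 → Q (ι c) (ι c) < 0 := fun c hc => by
    rw [hsq]
    obtain ⟨i, hi⟩ := Function.ne_iff.1 hc
    exact Finset.sum_neg' (fun i _ => mul_nonpos_of_nonneg_of_nonpos (sq_nonneg _) (hv1 i).le)
      ⟨i, Finset.mem_univ i, mul_neg_of_pos_of_neg (lt_of_le_of_ne (sq_nonneg _) (pow_ne_zero 2 hi).symm) (hv1 i)⟩
  let z : (Fin (m + 1) → ℚ) →ₗ[ℚ] (L ⧸ N) := e.symm.toLinearMap ∘ₗ Ψ ∘ₗ ι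
  have hz : ∀ c, J (z c) = Ψ (ι c) := fun c => by
    rw [← he]
    exact e.apply_symm_apply _
  by_cases hinj : Function.Injective z
  · have hsurj : Function.Surjective z :=
      (LinearMap.injective_iff_surjective_of_finrank_eq_finrank (by
        rw [hm, finrank_fin_fun])).1 hinj
    obtain ⟨c, hc⟩ := hsurj (N.mkQ H)
    have h1 : Ψ (ι c) = Ψ (h H) := by rw [← hz, hc, hJ]
    have h2 : ∀ w, Q (ι c) (h w) = Q (h H) (h w) := fun w => by rw [← hΨ, h1, hΨ]
    have h3 := hprim (ι c - h H) (fun w => by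
      rw [map_sub, LinearMap.sub_apply, h2, sub_self])
    have h4 : Q (ι c - h H) (ι c - h H) = Q (ι c) (ι c) - Q (h H) (h H) := by
      simp only [map_sub, LinearMap.sub_apply]
      rw [h2, hsymm (h H) (ι c), h2]
      ring
    rw [h4] at h3
    have := hle c
    linarith
  · rw [← LinearMap.ker_eq_bot, LinearMap.ker_eq_bot'] at hinj
    push Not at hinj
    obtain ⟨c, hc, hc0⟩ := hinj
    have h1 : Ψ (ι c) = 0 := by rw [← hz, hc, map_zero]
    have h2 := hprim (ι c) (fun w => by rw [← hΨ, h1]; rfl)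
    have := hlt c hc0
    linarith

/-- A basis of the quotient lifts to a family which is independent modulo `N`. -/
lemma exists_indep (N : Submodule ℚ L) [FiniteDimensional ℚ (L ⧸ N)]
    (hm : finrank ℚ (L ⧸ N) = m + 1) :
    ∃ d : Fin (m + 1) → L, ∀ c : Fin (m + 1) → ℚ, ∑ i, c i • d i ∈ N → c = 0 := by
  let b := Module.finBasisOfFinrankEq ℚ (L ⧸ N) hm
  choose d hd using fun i => N.mkQ_surjective (b i)
  refine ⟨d, fun c hc => ?_⟩
  have h1 : ∑ i, c i • b i = 0 := by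
    rw [← (Submodule.Quotient.mk_eq_zero N).2 hc, ← Submodule.mkQ_apply, map_sum]
    apply Finset.sum_congr rfl
    intro i _
    rw [map_smul, hd]
  funext i
  exact (Fintype.linearIndependent_iff.1 b.linearIndependent) c h1 i

/-- More vectors than the rank of the quotient are dependent modulo `N`. -/
lemma exists_relation (N : Submodule ℚ L) [FiniteDimensional ℚ (L ⧸ N)]
    (hm : finrank ℚ (L ⧸ N) = m) (a : Fin (m + 1) → L) :
    ∃ c : Fin (m + 1) → ℚ, c ≠ 0 ∧ ∑ i, c i • a i ∈ N := by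
  have h1 : ¬ LinearIndependent ℚ (fun i => N.mkQ (a i)) := by
    intro h
    have := h.fintype_card_le_finrank
    simp [hm] at this
  rw [Fintype.not_linearIndependent_iff] at h1
  obtain ⟨c, hc, i, hi⟩ := h1
  refine ⟨c, fun h => hi (by rw [h]; rfl), ?_⟩
  rw [← Submodule.Quotient.mk_eq_zero, ← Submodule.mkQ_apply, map_sum, ← hc]
  apply Finset.sum_congr rfl
  intro i _
  rw [map_smul]

end

end Pool.Agent.H934.HS
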